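import Pool.Agent.H221.TW.Stm

/-!
Project TW (helper221), part S_ax: affine normalisation of an axis.
-/

set_option autoImplicit false

namespace Pool.Agent.H292.TW

open Pool.Agent.H332.HT (V2 V3 det P IP T C Full Good Bi)
open Pool.Agent.H165.HW (GB Par)
open Pool.Agent.H221.TW

theorem exists_equiv (h : V3 →ₗ[ℝ] ℝ) (u : V3) (hu : 0 < h u) :
    ∃ A : V3 ≃L[ℝ] V3, (∀ z : ℝ, A ((0 : V2), z) = z • u) ∧
      (∀ p : V2, ∀ z : ℝ, h (A (p, z)) = z * h u) := by
  have hne : h ≠ 0 := by
    rintro rfl
    simp at hu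
  have hrank : Module.finrank ℝ (LinearMap.ker h) = 2 := by
    have h1 := LinearMap.finrank_range_add_finrank_ker h
    have h2 : Module.finrank ℝ (LinearMap.range h) = 1 := by
      rw [LinearMap.range_eq_top.2 (LinearMap.surjective hne)]
      simp
    have h3 : Module.finrank ℝ V3 = 3 := by
      simp [V3, V2]
    omega
  have hV2 : Module.finrank ℝ V2 = 2 := by simp [V2]
  let B : V2 ≃ₗ[ℝ] LinearMap.ker h := LinearEquiv.ofFinrankEq _ _ (by rw [hrank, hV2])
  let A₀ : V3 →ₗ[ℝ] V3 :=
    ((LinearMap.ker h).subtype ∘ₗ B.toLinearMap) ∘ₗ LinearMap.fst ℝ V2 ℝ +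
      (LinearMap.toSpanSingleton ℝ V3 u) ∘ₗ LinearMap.snd ℝ V2 ℝ
  have hA : ∀ x : V3, A₀ x = (B x.1 : V3) + x.2 • u := fun x => rfl
  have hB : ∀ p : V2, h (B p : V3) = 0 := fun p => (B p).2
  have hhA : ∀ x : V3, h (A₀ x) = x.2 * h u := by
    intro x
    rw [hA, map_add, hB, map_smul, zero_add, smul_eq_mul]
  have hinj : Function.Injective A₀ := by
    rw [injective_iff_map_eq_zero]
    intro x hx
    have h1 : x.2 = 0 := by
      have h2 := hhA x
      rw [hx, map_zero] at h2
      rcases mul_eq_zero.1 h2.symm with h3 | h3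
      · exact h3
      · exact absurd h3 hu.ne'
    have h2 : x.1 = 0 := by
      have h3 := hA x
      rw [hx, h1, zero_smul, add_zero] at h3
      have h4 : B x.1 = 0 := Subtype.ext h3.symm
      exact (LinearEquiv.map_eq_zero_iff B).1 h4
    exact Prod.ext h2 h1
  refine ⟨(LinearEquiv.ofInjectiveEndo A₀ hinj).toContinuousLinearEquiv, ?_, ?_⟩
  · intro z
    change A₀ ((0 : V2), z) = z • u
    rw [hA]
    simp
  · intro p z
    exact hhA (p, z)

theorem mid_interior {K : Set V3} (hK : Convex ℝ K) {N S w : V3} (hN : N ∈ K) (hS : S ∈ K)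
    (hw : w ∈ openSegment ℝ N S) (hi : w ∈ interior K) :
    (1 / 2 : ℝ) • (N + S) ∈ interior K := by
  obtain ⟨a, b, ha, hb, hab, rfl⟩ := hw
  rcases le_total (1 / 2) a with h | h
  · have h1 := hK.combo_interior_self_mem_interior hi hS (a := 1 / 2 / a) (b := 1 - 1 / 2 / a)
      (by positivity) (by
        have : 1 / 2 / a ≤ 1 := by rw [div_le_one ha]; exact h
        linarith) (by ring)
    have h2 : (1 / 2 : ℝ) • (N + S) = (1 / 2 / a) • (a • N + b • S) + (1 - 1 / 2 / a) • S := by
      have hb' : b = 1 - a := by linarith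
      have e1 : (1 / 2 / a) • a • N = (1 / 2 : ℝ) • N := by
        rw [smul_smul]; congr 1; field_simp
      have e2 : (1 / 2 / a) • b • S + (1 - 1 / 2 / a) • S = (1 / 2 : ℝ) • S := by
        rw [smul_smul, ← add_smul]; congr 1; rw [hb']; field_simp; ring
      rw [smul_add, smul_add, e1, add_assoc, e2]
    rw [h2]; exact h1
  · have hb2 : 1 / 2 ≤ b := by linarith
    have h1 := hK.combo_interior_self_mem_interior hi hN (a := 1 / 2 / b) (b := 1 - 1 / 2 / b)
      (by positivity) (by
        have : 1 / 2 / b ≤ 1 := by rw [div_le_one hb]; exact hb2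
        linarith) (by ring)
    have h2 : (1 / 2 : ℝ) • (N + S) = (1 / 2 / b) • (a • N + b • S) + (1 - 1 / 2 / b) • N := by
      have ha' : a = 1 - b := by linarith
      have e1 : (1 / 2 / b) • b • S = (1 / 2 : ℝ) • S := by
        rw [smul_smul]; congr 1; field_simp
      have e2 : (1 / 2 / b) • a • N + (1 - 1 / 2 / b) • N = (1 / 2 : ℝ) • N := by
        rw [smul_smul, ← add_smul]; congr 1; rw [ha']; field_simp; ring
      rw [smul_add, smul_add, e1, add_right_comm, e2]
    rw [h2]; exact h1

theorem interior_fst {K : Set V3} {x : V3} (hx : x ∈ interior K) : x.1 ∈ IP K := by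
  have h1 : IsOpen (Prod.fst '' interior K : Set V2) := isOpenMap_fst _ isOpen_interior
  have h2 : (Prod.fst '' interior K : Set V2) ⊆ P K := Set.image_mono interior_subset
  exact interior_maximal h2 h1 ⟨x, hx, rfl⟩

/-- AX: a body with an axis is illuminated -/
theorem ax : S_ax := by
  intro hI K hc hv h N S w hX
  obtain ⟨hN, hS, hhN, hhS, hlt, hseg, hint, hcen, hsep, hful⟩ := hX
  set u : V3 := (1 / 2 : ℝ) • (N - S) with hu
  set M : V3 := (1 / 2 : ℝ) • (N + S) with hM
  have hMu : M + u = N := by
    rw [hM, hu, ← smul_add]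
    have : N + S + (N - S) = (2 : ℝ) • N := by rw [two_smul]; abel
    rw [this, smul_smul]; norm_num
  have hMu' : M - u = S := by
    rw [hM, hu, ← smul_sub]
    have : N + S - (N - S) = (2 : ℝ) • S := by rw [two_smul]; abel
    rw [this, smul_smul]; norm_num
  have hNS : N - S = (2 : ℝ) • u := by
    rw [hu, smul_smul]; norm_num
  have hhu : 0 < h u := by
    rw [hu, map_smul, map_sub, smul_eq_mul]
    have : 0 < h N - h S := by linarith
    positivity
  obtain ⟨A, hA1, hA2⟩ := exists_equiv h u hhu
  -- the affine map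
  set Ψ : V3 → V3 := fun x => A x + M with hΨ
  have hΨc : Continuous Ψ := A.continuous.add continuous_const
  let Φ : V3 ≃ₜ V3 := A.toHomeomorph.trans (Homeomorph.addRight M)
  have hΦ : ∀ x, Φ x = Ψ x := fun x => rfl
  set K' : Set V3 := Φ ⁻¹' K with hK'
  have hmem : ∀ x, x ∈ K' ↔ A x + M ∈ K := fun x => Iff.rfl
  have hint' : ∀ x, x ∈ interior K' ↔ A x + M ∈ interior K := by
    intro x
    have h1 : interior K' = Φ ⁻¹' interior K := (Φ.preimage_interior K).symm
    rw [h1]; rfl
  have hcpt : IsCompact K' := by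
    have h1 : K' = Φ.symm '' K := by
      rw [hK', Φ.image_symm]
    rw [h1]; exact hc.image Φ.symm.continuous
  have hcvx : Convex ℝ K' := by
    intro x hx y hy a b ha hb hab
    rw [hmem] at hx hy ⊢
    have h1 : A (a • x + b • y) + M = a • (A x + M) + b • (A y + M) := by
      rw [map_add, map_smul, map_smul, smul_add, smul_add]
      have h2 : M = a • M + b • M := by rw [← add_smul, hab, one_smul]
      conv_lhs => rw [h2]
      abel
    rw [h1]; exact hv hx hy ha hb hab
  have hhM1 : h M + h u = h N := by rw [← map_add, hMu]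
  have hhM2 : h M - h u = h S := by rw [← map_sub, hMu']
  have hhΨ : ∀ (p : V2) (z : ℝ), h (A (p, z) + M) = z * h u + h M := by
    intro p z; rw [map_add, hA2]
  have hsplit : ∀ (p : V2) (z s : ℝ), A (p, z + s) = A (p, z) + s • u := by
    intro p z s
    have h1 : ((p, z + s) : V3) = (p, z) + ((0 : V2), s) := by
      simp
    rw [h1, map_add, hA1]
  have hOv : ∀ (p : V2) (z : ℝ), Ov K (N - S) (A (p, z) + M) → p ∈ IP K' := by
    rintro p z ⟨s, hs⟩
    have h1 : ((p, z + 2 * s) : V3) ∈ interior K' := by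
      rw [hint', hsplit]
      have h2 : A (p, z) + M + s • (N - S) = A (p, z) + (2 * s) • u + M := by
        rw [hNS, smul_smul, mul_comm s 2]; abel
      rw [← h2]; exact hs
    exact interior_fst h1
  have hGB : GB (31 / 10) K' := by
    refine ⟨hcpt, hcvx, ?_, ?_, ?_, ?_, ?_⟩
    · intro p z hz
      rw [hmem] at hz
      have h1 := hhN _ hz
      have h2 := hhS _ hz
      rw [hhΨ] at h1 h2
      rw [abs_le]
      constructor
      · by_contra h3
        push Not at h3
        have : z * h u < -1 * h u := mul_lt_mul_of_pos_right h3 hhu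
        linarith
      · by_contra h3
        push Not at h3
        have : 1 * h u < z * h u := mul_lt_mul_of_pos_right h3 hhu
        linarith
    · rw [hmem, hA1, one_smul, add_comm, hMu]; exact hN
    · rw [hmem, hA1, neg_one_smul, add_comm, ← sub_eq_add_neg, hMu']; exact hS
    · rw [hint', map_zero, zero_add]
      exact mid_interior hv hN hS hseg hint
    · rintro _ ⟨⟨p, z⟩, hpz, rfl⟩
      have hr : (1 / (31 / 10 : ℝ)) = 10 / (31 : ℝ) := by norm_num
      rw [hr]
      rw [hmem] at hpz
      have h1 := hcen _ hpz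
      -- w = A (0, c) + M
      obtain ⟨a, b, ha, hb, hab, hw⟩ := hseg
      have hw' : w = A ((0 : V2), a - b) + M := by
        rw [hA1, ← hw, ← hMu, ← hMu']
        rw [smul_add, smul_sub, sub_smul]
        have h2 : M = a • M + b • M := by rw [← add_smul, hab, one_smul]
        conv_rhs => rw [h2]
        abel
      refine ⟨((-((10 / (31 : ℝ)) • p)), (a - b) - (10 / (31 : ℝ)) * (z - (a - b))), ?_, rfl⟩
      rw [hmem]
      have h3 : ((-((10 / (31 : ℝ)) • p), (a - b) - (10 / (31 : ℝ)) * (z - (a - b))) : V3) =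
          ((0 : V2), a - b) - (10 / (31 : ℝ)) • (((p, z) : V3) - ((0 : V2), a - b)) := by
        ext <;> simp
      have h4 : A ((-((10 / (31 : ℝ)) • p), (a - b) - (10 / (31 : ℝ)) * (z - (a - b))) : V3) + M =
          w - (10 / (31 : ℝ)) • (A (p, z) + M - w) := by
        rw [h3, map_sub, map_smul, map_sub, hw']
        simp only [smul_sub, smul_add]
        abel
      rw [h4]; exact h1
  have hSep : Sep K' := by
    rcases hsep with ⟨m, hmNS, ⟨v, hv0, hmv⟩, hm1, hm2⟩ | hno
    · left
      refine ⟨(m ∘ₗ (A : V3 →L[ℝ] V3).toLinearMap) ∘ₗ LinearMap.inl ℝ V2 ℝ, ?_, ?_, ?_⟩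
      · intro h0
        apply hmv
        obtain ⟨⟨p, z⟩, hpz⟩ := A.surjective v
        have hz : z = 0 := by
          have h1 := hA2 p z
          rw [hpz, hv0] at h1
          rcases mul_eq_zero.1 h1.symm with h2 | h2
          · exact h2
          · exact absurd h2 hhu.ne'
        subst hz
        have h1 := LinearMap.congr_fun h0 p
        rw [← hpz]
        exact h1
      · intro p hp hpi
        rw [hmem] at hp
        have h1 : A (p, 1) + M = A (p, 0) + N := by
          have h2 := hsplit p 0 1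
          rw [zero_add, one_smul] at h2
          rw [h2, add_assoc, add_comm u M, hMu]
        rcases hm1 _ hp (by rw [hhΨ, one_mul, add_comm]; exact hhM1) with h2 | h2
        · rw [h1, map_add] at h2
          have h3 : m (A (p, 0)) ≤ 0 := by linarith
          exact h3
        · exact absurd (hOv p 1 h2) hpi
      · intro p hp hpi
        rw [hmem] at hp
        have h1 : A (p, -1) + M = A (p, 0) + S := by
          have h2 := hsplit p 0 (-1)
          rw [zero_add, neg_one_smul] at h2
          rw [h2, add_assoc, add_comm (-u) M, ← sub_eq_add_neg, hMu']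
        rcases hm2 _ hp (by rw [hhΨ]; linarith) with h2 | h2
        · rw [h1, map_add] at h2
          have h3 : 0 ≤ m (A (p, 0)) := by linarith
          exact h3
        · exact absurd (hOv p (-1) h2) hpi
    · right
      intro p hp
      rw [hmem] at hp
      exact hOv p 1 (hno _ hp (by rw [hhΨ, one_mul, add_comm]; exact hhM1))
  have hFull : ∀ p : V2, Full K' p → p ∈ IP K' := by
    rintro p ⟨hp1, hp2⟩
    rw [hmem] at hp1 hp2
    refine hOv p 1 (hful _ hp1 (by rw [hhΨ, one_mul, add_comm]; exact hhM1) ?_)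
    have h1 : A (p, 1) + M - (N - S) = A (p, -1) + M := by
      have h2 := hsplit p 1 (-2)
      have h3 : (1 : ℝ) + (-2) = -1 := by norm_num
      rw [h3] at h2
      rw [h2, hNS, neg_smul]
      abel
    rw [h1]; exact hp2
  obtain ⟨L, hL⟩ := hI K' hGB hSep hFull
  refine ⟨fun i => A (L i), ?_⟩
  intro x hx hxi
  obtain ⟨y, hy⟩ := Φ.surjective x
  have hy' : A y + M = x := hy
  have h1 : y ∈ K' := by rw [hmem, hy']; exact hx
  have h2 : y ∉ interior K' := by rw [hint', hy']; exact hxi
  obtain ⟨i, t, ht, hi⟩ := hL y h1 h2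
  refine ⟨i, t, ht, ?_⟩
  rw [hint', map_add, map_smul] at hi
  have h3 : x + t • A (L i) = A y + t • A (L i) + M := by
    rw [← hy']; abel
  change x + t • A (L i) ∈ interior K
  rw [h3]; exact hi

end Pool.Agent.H292.TW
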