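import Pool.Agent.H221.TW.Cen

/-!
Project TW (helper221), parts S_min3 and S_plc: Minkowski's theorem on the centre of a compact
convex set in a space of dimension `n`, by Helly's theorem.
-/

set_option autoImplicit false

namespace Pool.Agent.H292.TW

open Pool.Agent.H332.HT (V2 V3)
open Pool.Agent.H221.TW

/-- Minkowski: a compact convex set of dimension at most `n` has a centre of ratio `n` -/
theorem minkowski_center {E : Type*} [AddCommGroup E] [Module ℝ E] [TopologicalSpace E] [T2Space E]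
    [IsTopologicalAddGroup E] [ContinuousSMul ℝ E] [FiniteDimensional ℝ E] (n : ℕ) (hn : 0 < n)
    (hfr : Module.finrank ℝ E ≤ n) {K : Set E} (hK : IsCompact K) (hKc : Convex ℝ K)
    (hne : K.Nonempty) : ∃ p ∈ K, ∀ y ∈ K, p - (1 / (n : ℝ)) • (y - p) ∈ K := by
  classical
  have hn' : (0 : ℝ) < n := by exact_mod_cast hn
  let G : K → Set E := fun y => K ∩ {p : E | p - (1 / (n : ℝ)) • ((y : E) - p) ∈ K}
  have hcont : ∀ y : E, Continuous fun p : E => p - (1 / (n : ℝ)) • (y - p) := by
    intro y; fun_prop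
  have hG1 : ∀ y, Convex ℝ (G y) := by
    intro y
    apply hKc.inter
    intro p hp q hq a b ha hb hab
    have h1 : a • p + b • q - (1 / (n : ℝ)) • ((y : E) - (a • p + b • q)) =
        a • (p - (1 / (n : ℝ)) • ((y : E) - p)) + b • (q - (1 / (n : ℝ)) • ((y : E) - q)) := by
      have h2 : (y : E) = a • (y : E) + b • (y : E) := by rw [← add_smul, hab, one_smul]
      conv_lhs => rw [h2]
      module
    change a • p + b • q - (1 / (n : ℝ)) • ((y : E) - (a • p + b • q)) ∈ K
    rw [h1]
    exact hKc hp hq ha hb hab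
  have hG2 : ∀ y, IsCompact (G y) := by
    intro y
    exact hK.inter_right (hK.isClosed.preimage (hcont y))
  have hG3 : ∀ I : Finset K, I.card ≤ Module.finrank ℝ E + 1 → (⋂ i ∈ I, G i).Nonempty := by
    intro I hI
    rcases I.eq_empty_or_nonempty with rfl | hIne
    · simp
    have hm : 0 < (I.card : ℝ) := by exact_mod_cast hIne.card_pos
    have hmn : (I.card : ℝ) ≤ n + 1 := by exact_mod_cast hI.trans (by omega)
    refine ⟨∑ j ∈ I, (1 / (I.card : ℝ)) • (j : E), ?_⟩
    simp only [Set.mem_iInter]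
    intro i hi
    refine ⟨?_, ?_⟩
    · apply hKc.sum_mem
      · intro j _; positivity
      · rw [Finset.sum_const, nsmul_eq_mul]; field_simp
      · intro j _; exact j.2
    · change (∑ j ∈ I, (1 / (I.card : ℝ)) • (j : E)) -
        (1 / (n : ℝ)) • ((i : E) - ∑ j ∈ I, (1 / (I.card : ℝ)) • (j : E)) ∈ K
      have h1 : (∑ j ∈ I, (1 / (I.card : ℝ)) • (j : E)) -
          (1 / (n : ℝ)) • ((i : E) - ∑ j ∈ I, (1 / (I.card : ℝ)) • (j : E)) =
          ∑ j ∈ I, ((1 + 1 / (n : ℝ)) * (1 / (I.card : ℝ)) - if j = i then 1 / (n : ℝ) else 0) •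
            (j : E) := by
        simp only [sub_smul, Finset.sum_sub_distrib, ite_smul, zero_smul, Finset.sum_ite_eq', hi,
          if_true, mul_smul, ← Finset.smul_sum]
        module
      rw [h1]
      apply hKc.sum_mem
      · intro j _
        have h2 : 1 / (n : ℝ) ≤ (1 + 1 / (n : ℝ)) * (1 / (I.card : ℝ)) := by
          rw [mul_one_div, le_div_iff₀ hm]
          have : 1 / (n : ℝ) * I.card ≤ 1 / (n : ℝ) * (n + 1) :=
            mul_le_mul_of_nonneg_left hmn (by positivity)
          calc 1 / (n : ℝ) * I.card ≤ 1 / (n : ℝ) * (n + 1) := this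
            _ = 1 + 1 / (n : ℝ) := by field_simp
        have h3 : 0 ≤ (1 + 1 / (n : ℝ)) * (1 / (I.card : ℝ)) := by positivity
        split_ifs
        · linarith
        · linarith
      · rw [Finset.sum_sub_distrib, Finset.sum_const, nsmul_eq_mul, Finset.sum_ite_eq', if_pos hi]
        field_simp
        ring
      · intro j _; exact j.2
  obtain ⟨p, hp⟩ := Convex.helly_theorem_compact' hG1 hG2 hG3
  rw [Set.mem_iInter] at hp
  obtain ⟨y0, hy0⟩ := hne
  exact ⟨p, (hp ⟨y0, hy0⟩).1, fun y hy => (hp ⟨y, hy⟩).2⟩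

theorem min3 : S_min3 := by
  intro K hK hKc hne
  have h := minkowski_center 3 (by norm_num) (by simp [V3, V2]) hK hKc hne
  exact_mod_cast h

theorem plc : S_plc := by
  intro F hF hFc hne f hf c hfc
  have hrank : Module.finrank ℝ (LinearMap.ker f) = 2 := by
    have h1 := LinearMap.finrank_range_add_finrank_ker f
    have h2 : Module.finrank ℝ (LinearMap.range f) = 1 := by
      rw [LinearMap.range_eq_top.2 (LinearMap.surjective hf)]
      simp
    have h3 : Module.finrank ℝ V3 = 3 := by
      simp [V3, V2]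
    omega
  obtain ⟨y0, hy0⟩ := hne
  let φ : LinearMap.ker f → V3 := fun x => (x : V3) + y0
  have hφ : Topology.IsClosedEmbedding φ :=
    (Homeomorph.addRight y0).isClosedEmbedding.comp
      (LinearMap.ker f).closed_of_finiteDimensional.isClosedEmbedding_subtypeVal
  have hmem : ∀ x : LinearMap.ker f, x ∈ φ ⁻¹' F ↔ (x : V3) + y0 ∈ F := fun x => Iff.rfl
  have hcpt : IsCompact (φ ⁻¹' F) := hφ.isCompact_preimage hF
  have hcvx : Convex ℝ (φ ⁻¹' F) := by
    intro x hx y hy a b ha hb hab
    rw [hmem] at hx hy ⊢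
    have h1 : ((a • x + b • y : LinearMap.ker f) : V3) + y0 =
        a • ((x : V3) + y0) + b • ((y : V3) + y0) := by
      have h2 : y0 = a • y0 + b • y0 := by rw [← add_smul, hab, one_smul]
      rw [Submodule.coe_add, Submodule.coe_smul, Submodule.coe_smul]
      conv_lhs => rw [h2]
      module
    rw [h1]; exact hFc hx hy ha hb hab
  have hne' : (φ ⁻¹' F).Nonempty := ⟨0, by rw [hmem]; simpa using hy0⟩
  obtain ⟨p, hp, hpc⟩ := minkowski_center 2 (by norm_num) hrank.le hcpt hcvx hne'
  refine ⟨(p : V3) + y0, hp, ?_⟩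
  intro y hy
  have hk : y - y0 ∈ LinearMap.ker f := by
    rw [LinearMap.mem_ker, map_sub, hfc y hy, hfc y0 hy0, sub_self]
  have h1 := hpc ⟨y - y0, hk⟩ (by rw [hmem]; simpa using hy)
  rw [hmem] at h1
  have h2 : ((p - (1 / ((2 : ℕ) : ℝ)) • ((⟨y - y0, hk⟩ : LinearMap.ker f) - p) :
      LinearMap.ker f) : V3) + y0 = (p : V3) + y0 - (1 / (2 : ℝ)) • (y - ((p : V3) + y0)) := by
    rw [Submodule.coe_sub, Submodule.coe_smul, Submodule.coe_sub]
    push_cast
    module
  rw [h2] at h1
  exact h1

end Pool.Agent.H292.TW
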