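import Pool.Agent.H292.TW.Chk2

/-!
Project TW (helper221), S_planar: case trees and soundness of the checker.
-/

set_option autoImplicit false

namespace Pool.Agent.H292.TW.Chk

def go (s : St) : List (ℕ × Fact) → ℕ → ℕ → ℕ → ℕ → ℕ → ℕ → Bool → Bool
  | [], el, er, tl, tr, pa, pb, st =>
    Nat.beq el er && (Nat.blt tl B && (Nat.blt tr B &&
      (Nat.blt pb pa || (Nat.beq pb pa && st))))
  | w :: W, el, er, tl, tr, pa, pb, st =>
    match ev s w.2 with
    | none => false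
    | some I =>
      kok I.l && (kok I.r && (Nat.blt 0 I.b &&
        go s W (w.1 * enc I.l + el) (w.1 * enc I.r + er) (w.1 * tot I.l + tl) (w.1 * tot I.r + tr)
          (I.a ^ w.1 * pa) (I.b ^ w.1 * pb) ((Nat.blt 0 w.1 && I.st) || st)))

inductive Tr
  | leaf (W : List (ℕ × Fact))
  | sg (i j : ℕ) (t u : Tr)
  | pr (i k : ℕ) (t u : Tr)
  | ps (i k : ℕ) (t u : Tr)
  | ch (i : ℕ) (t1 t2 t3 t4 : Tr)
  | cm (a b c d : ℕ) (t u : Tr)
  | br (a b c d p q : ℕ) (t u : Tr)
  | bc (a b c p q : ℕ) (t u : Tr)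
  | bu (i j k p q : ℕ) (t u : Tr)
  | bv (i j k p q : ℕ) (t u : Tr)
  | bt (i j k p q : ℕ) (t u : Tr)

def prs : List (ℕ × ℕ) :=
  [(0,1),(0,2),(0,3),(0,4),(0,5),(0,6),(0,7),(0,8),(0,9),
   (1,2),(1,3),(1,4),(1,5),(1,6),(1,7),(1,8),(1,9),
   (2,3),(2,4),(2,5),(2,6),(2,7),(2,8),(2,9),
   (3,4),(3,5),(3,6),(3,7),(3,8),(3,9),
   (4,5),(4,6),(4,7),(4,8),(4,9),
   (5,6),(5,7),(5,8),(5,9),
   (6,7),(6,8),(6,9),
   (7,8),(7,9),
   (8,9)]

/-- add to the mask all pairs of the arc from `i` to `i + n` -/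
def arcs (i n : ℕ) : List (ℕ × ℕ) → ℕ → ℕ
  | [], a => a
  | q :: L, a =>
    if Nat.ble q.2 n then Nat.lor (2 ^ (10 * md (i + q.1) + md (i + q.2))) (arcs i n L a)
    else arcs i n L a

def sgAdd (i j a : ℕ) : ℕ := arcs i (md (j + 10 - i)) prs a

def chk : Tr → St → Bool
  | .leaf W, s => go s W 0 0 0 0 1 1 false
  | .sg i j t u, ⟨sg, lt, le, c3, c4, ex⟩ =>
    Nat.blt i 10 && (Nat.blt j 10 && (!(Nat.beq i j) &&
      (chk t ⟨sgAdd i j sg, lt, le, c3, c4, ex⟩ && chk u ⟨sgAdd j i sg, lt, le, c3, c4, ex⟩)))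
  | .pr i k t u, ⟨sg, lt, le, c3, c4, ex⟩ =>
    Nat.ble 2 k && (Nat.ble k 8 && (pos ⟨sg, lt, le, c3, c4, ex⟩ i (md (i + k + 1)) &&
      (chk t ⟨sg, (i, md (i + k + 1), i, md (i + 1)) :: lt, le, c3, c4, ex⟩ &&
       chk u ⟨sg, (i, md (i + k + 1), md (i + k), md (i + k + 1)) :: lt,
        (i, md (i + 1), i, md (i + k + 1)) :: le, c3, c4, ex⟩)))
  | .ps i k t u, ⟨sg, lt, le, c3, c4, ex⟩ =>
    Nat.ble 2 k && (Nat.ble k 8 && (pos ⟨sg, lt, le, c3, c4, ex⟩ i (md (i + k + 1)) &&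
      (chk t ⟨sg, (i, md (i + k + 1), md (i + k), md (i + k + 1)) :: lt, le, c3, c4, ex⟩ &&
       chk u ⟨sg, (i, md (i + k + 1), i, md (i + 1)) :: lt,
        (md (i + k), md (i + k + 1), i, md (i + k + 1)) :: le, c3, c4, ex⟩)))
  | .ch i t1 t2 t3 t4, ⟨sg, lt, le, c3, c4, ex⟩ =>
    pos ⟨sg, lt, le, c3, c4, ex⟩ i (md (i + 3)) &&
    (pos ⟨sg, lt, le, c3, c4, ex⟩ (md (i + 2)) (md (i + 5)) &&
    (chk t1 ⟨sg, (i, md (i + 3), i, md (i + 1)) :: lt, le, c3, c4, ex⟩ &&
    (chk t2 ⟨sg, (md (i + 2), md (i + 5), md (i + 4), md (i + 5)) :: lt, le, c3, c4, ex⟩ &&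
    (chk t3 ⟨sg, (i, md (i + 3), md (i + 2), md (i + 3)) ::
      (md (i + 2), md (i + 5), md (i + 2), md (i + 3)) :: lt, le, i :: c3, c4, ex⟩ &&
    chk t4 ⟨sg, (i, md (i + 3), md (i + 2), md (i + 3)) ::
      (md (i + 2), md (i + 5), md (i + 2), md (i + 3)) :: lt, le, c3, i :: c4, ex⟩))))
  | .cm a b c d t u, ⟨sg, lt, le, c3, c4, ex⟩ =>
    chk t ⟨sg, (a, b, c, d) :: lt, le, c3, c4, ex⟩ &&
    chk u ⟨sg, lt, (c, d, a, b) :: le, c3, c4, ex⟩
  | .br a b c d p q t u, ⟨sg, lt, le, c3, c4, ex⟩ =>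
    (match psg ⟨sg, lt, le, c3, c4, ex⟩ a b c d, psg ⟨sg, lt, le, c3, c4, ex⟩ a c b d,
        psg ⟨sg, lt, le, c3, c4, ex⟩ a d b c with
      | some x, some y, some z => (x == y && y == z)
      | _, _, _ => false) &&
    (chk t ⟨sg, lt, le, c3, c4, ⟨[(key a c, 1), (key b d, 1)], [(key a b, 1), (key c d, 1)],
        q, p + q, false⟩ :: ex⟩ &&
     chk u ⟨sg, lt, le, c3, c4, ⟨[(key a c, 1), (key b d, 1)], [(key a d, 1), (key b c, 1)],
        p, p + q, false⟩ :: ex⟩)
  | .bc a b c p q t u, ⟨sg, lt, le, c3, c4, ex⟩ =>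
    pos ⟨sg, lt, le, c3, c4, ex⟩ a b && (pos ⟨sg, lt, le, c3, c4, ex⟩ b c &&
    (pos ⟨sg, lt, le, c3, c4, ex⟩ a c &&
    (chk t ⟨sg, lt, le, c3, c4, ⟨[(key a c, 1)], [(key a b, 1)], q, p + q, false⟩ :: ex⟩ &&
     chk u ⟨sg, lt, le, c3, c4, ⟨[(key a c, 1)], [(key b c, 1)], p, p + q, false⟩ :: ex⟩)))
  | .bu i j k p q t u, ⟨sg, lt, le, c3, c4, ex⟩ =>
    pos ⟨sg, lt, le, c3, c4, ex⟩ i j && (pos ⟨sg, lt, le, c3, c4, ex⟩ i k &&
    (pos ⟨sg, lt, le, c3, c4, ex⟩ j k &&
    (chk t ⟨sg, lt, le, c3, c4, ⟨[(key j k, 1)], [(key i k, 1)], q, p + q, false⟩ :: ex⟩ &&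
     chk u ⟨sg, lt, le, c3, c4, ⟨[(key j k, 1)], [(key i j, 1)], 10 * p, 31 * (p + q), false⟩ ::
        ex⟩)))
  | .bv i j k p q t u, ⟨sg, lt, le, c3, c4, ex⟩ =>
    pos ⟨sg, lt, le, c3, c4, ex⟩ j i && (pos ⟨sg, lt, le, c3, c4, ex⟩ k i &&
    (pos ⟨sg, lt, le, c3, c4, ex⟩ k j &&
    (chk t ⟨sg, lt, le, c3, c4, ⟨[(key k j, 1)], [(key k i, 1)], q, p + q, false⟩ :: ex⟩ &&
     chk u ⟨sg, lt, le, c3, c4, ⟨[(key k j, 1)], [(key j i, 1)], 10 * p, 31 * (p + q), false⟩ ::
        ex⟩)))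
  | .bt i j k p q t u, ⟨sg, lt, le, c3, c4, ex⟩ =>
    pos ⟨sg, lt, le, c3, c4, ex⟩ i j && (pos ⟨sg, lt, le, c3, c4, ex⟩ k i &&
    (pos ⟨sg, lt, le, c3, c4, ex⟩ j k &&
    (chk t ⟨sg, lt, le, c3, c4, ⟨[(key j k, 1)], [(key k i, 1)], 10 * q, 31 * (p + q), false⟩ ::
        ex⟩ &&
     chk u ⟨sg, lt, le, c3, c4, ⟨[(key j k, 1)], [(key i j, 1)], 10 * p, 31 * (p + q), false⟩ ::
        ex⟩)))

/-! ### soundness -/

theorem md_lt (n : ℕ) : md n < 10 := Nat.mod_lt _ (by norm_num)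

theorem arcs_bit (i n a : ℕ) : ∀ (L : List (ℕ × ℕ)) (k : ℕ), Nat.testBit (arcs i n L a) k = true →
    (∃ q ∈ L, q.2 ≤ n ∧ k = 10 * md (i + q.1) + md (i + q.2)) ∨ Nat.testBit a k = true
  | [], k, h => Or.inr h
  | q :: L, k, h => by
    unfold arcs at h
    split_ifs at h with h1
    · have h2 : Nat.testBit (2 ^ (10 * md (i + q.1) + md (i + q.2)) ||| arcs i n L a) k = true := h
      rw [Nat.testBit_or, Bool.or_eq_true, Nat.testBit_two_pow] at h2
      rcases h2 with h2 | h2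
      · exact Or.inl ⟨q, List.mem_cons_self, Nat.le_of_ble_eq_true h1,
          (of_decide_eq_true h2).symm⟩
      · rcases arcs_bit i n a L k h2 with ⟨r, hr, h3⟩ | h3
        · exact Or.inl ⟨r, List.mem_cons_of_mem _ hr, h3⟩
        · exact Or.inr h3
    · rcases arcs_bit i n a L k h with ⟨r, hr, h3⟩ | h3
      · exact Or.inl ⟨r, List.mem_cons_of_mem _ hr, h3⟩
      · exact Or.inr h3

theorem prs_spec : ∀ q ∈ prs, q.1 < q.2 ∧ q.2 < 10 := by decide

section
variable {D : ℕ → ℕ → ℝ} (hD : Cfg D)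
include hD

theorem sgAdd_spec {i j a : ℕ} (hi : i < 10) (hj : j < 10) (hij : i ≠ j) (h : 0 < D i j)
    (ha : ∀ x y, x < 10 → y < 10 → Nat.testBit a (10 * x + y) = true → 0 < D x y) :
    ∀ x y, x < 10 → y < 10 → Nat.testBit (sgAdd i j a) (10 * x + y) = true → 0 < D x y := by
  intro x y hx hy hb
  rcases arcs_bit i _ a prs _ hb with ⟨q, hq, h1, h2⟩ | h1
  · obtain ⟨q1, q2⟩ := prs_spec q hq
    have m1 := md_lt (i + q.1)
    have m2 := md_lt (i + q.2)
    have e1 : x = md (i + q.1) := by omega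
    have e2 : y = md (i + q.2) := by omega
    rw [e1, e2, permd hD]
    have hn : md (j + 10 - i) < 10 := md_lt _
    refine hD.ord i q.1 q.2 (md (j + 10 - i)) q1 h1 hn ?_
    have e3 : md (i + md (j + 10 - i)) = j := by unfold md; omega
    rw [hD.anti, ← perl hD, e3, hD.anti, neg_neg]
    exact h
  · exact ha x y hx hy h1

theorem go_sound {s : St} (hs : Holds D s) : ∀ (W : List (ℕ × Fact)) (el er tl tr pa pb : ℕ)
    (st : Bool), go s W el er tl tr pa pb st = true →
    ∃ Is : List (ℕ × Ineq), (∀ w ∈ Is, w.2.holds (yv D)) ∧ (acc Is).ok = true ∧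
      (acc Is).el + el = (acc Is).er + er ∧ (acc Is).tl + tl < B ∧ (acc Is).tr + tr < B ∧
      ((acc Is).pb * pb < (acc Is).pa * pa ∨
        ((acc Is).pb * pb = (acc Is).pa * pa ∧ ((acc Is).st || st) = true))
  | [], el, er, tl, tr, pa, pb, st, h => by
    simp only [go, Bool.and_eq_true, Bool.or_eq_true, Nat.blt_eq] at h
    obtain ⟨h1, h2, h3, h4⟩ := h
    refine ⟨[], by simp, rfl, ?_, ?_, ?_, ?_⟩
    · simp [acc, Nat.eq_of_beq_eq_true h1]
    · simpa [acc] using h2
    · simpa [acc] using h3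
    · rcases h4 with h4 | ⟨h4, h5⟩
      · left; simpa [acc] using h4
      · right; simp [acc, Nat.eq_of_beq_eq_true h4, h5]
  | w :: W, el, er, tl, tr, pa, pb, st, h => by
    simp only [go] at h
    split at h
    · simp at h
    · rename_i I hI
      simp only [Bool.and_eq_true] at h
      obtain ⟨h1, h2, h3, h4⟩ := h
      obtain ⟨Is, i1, i2, i3, i4, i5, i6⟩ := go_sound hs W _ _ _ _ _ _ _ h4
      refine ⟨(w.1, I) :: Is, ?_, ?_, ?_, ?_, ?_, ?_⟩
      · intro v hv
        rcases List.mem_cons.1 hv with rfl | hv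
        · exact ev_sound hD hs hI
        · exact i1 v hv
      · simp only [acc, h1, h2, h3, i2, Bool.and_self]
      · simp only [acc]; omega
      · simp only [acc]; omega
      · simp only [acc]; omega
      · have e1 : (acc ((w.1, I) :: Is)).pb * pb = (acc Is).pb * (I.b ^ w.1 * pb) := by
          simp only [acc]; ring
        have e2 : (acc ((w.1, I) :: Is)).pa * pa = (acc Is).pa * (I.a ^ w.1 * pa) := by
          simp only [acc]; ring
        have e3 : ((acc ((w.1, I) :: Is)).st || st) =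
            ((acc Is).st || ((Nat.blt 0 w.1 && I.st) || st)) := by
          simp only [acc]
          cases (acc Is).st <;> cases (Nat.blt 0 w.1 && I.st) <;> cases st <;> rfl
        rw [e1, e2, e3]
        exact i6

theorem leaf_sound {s : St} (hs : Holds D s) {W : List (ℕ × Fact)}
    (h : go s W 0 0 0 0 1 1 false = true) : False := by
  obtain ⟨Is, i1, i2, i3, i4, i5, i6⟩ := go_sound hD hs W _ _ _ _ _ _ _ h
  refine leaf_false (yv D) (yv_pos D) Is ?_ i1
  simp only [add_zero, mul_one, Bool.or_false] at i3 i4 i5 i6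
  simp only [leafOk, Bool.and_eq_true, Bool.or_eq_true, Nat.blt_eq]
  refine ⟨⟨⟨⟨i2, ?_⟩, i4⟩, i5⟩, ?_⟩
  · rw [i3]; exact Nat.beq_refl _
  · rcases i6 with i6 | ⟨i6, i7⟩
    · exact Or.inl i6
    · right
      refine ⟨?_, i7⟩
      rw [i6]; exact Nat.beq_refl _

theorem perr (i j : ℕ) : D i (md j) = D i j := by
  rw [hD.anti, perl hD, ← hD.anti]

theorem Holds.add_lt {s : St} (hs : Holds D s) {a b c d : ℕ} (h : D a b < D c d) :
    Holds D { s with lt := (a, b, c, d) :: s.lt } where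
  sg := hs.sg
  lt := by
    intro q hq
    rcases List.mem_cons.1 hq with rfl | hq
    · exact h
    · exact hs.lt q hq
  le := hs.le
  c3 := hs.c3
  c4 := hs.c4
  ex := hs.ex

theorem Holds.add_le {s : St} (hs : Holds D s) {a b c d : ℕ} (h : D a b ≤ D c d) :
    Holds D { s with le := (a, b, c, d) :: s.le } where
  sg := hs.sg
  lt := hs.lt
  le := by
    intro q hq
    rcases List.mem_cons.1 hq with rfl | hq
    · exact h
    · exact hs.le q hq
  c3 := hs.c3
  c4 := hs.c4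
  ex := hs.ex

theorem Holds.add_ex {s : St} (hs : Holds D s) {I : Ineq} (h : I.holds (yv D)) :
    Holds D { s with ex := I :: s.ex } where
  sg := hs.sg
  lt := hs.lt
  le := hs.le
  c3 := hs.c3
  c4 := hs.c4
  ex := by
    intro q hq
    rcases List.mem_cons.1 hq with rfl | hq
    · exact h
    · exact hs.ex q hq

theorem pair' {i k : ℕ} (h1 : 2 ≤ k) (h2 : k ≤ 8) (h : 0 < D i (md (i + k + 1))) :
    D i (md (i + k + 1)) < D i (md (i + 1)) ∨
      D i (md (i + k + 1)) < D (md (i + k)) (md (i + k + 1)) := by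
  rw [perr hD] at h
  rw [perr hD, perr hD, permd hD]
  exact hD.pair i k h1 h2 h

theorem chk_sound : ∀ (t : Tr) (s : St), chk t s = true → Holds D s → False := by
  intro t
  induction t with
  | leaf W =>
    intro s h hs
    exact leaf_sound hD hs h
  | sg i j t u iht ihu =>
    rintro ⟨sg, lt, le, c3, c4, ex⟩ h hs
    simp only [chk, Bool.and_eq_true, Nat.blt_eq, Bool.not_eq_true'] at h
    obtain ⟨hi, hj, hij, h1, h2⟩ := h
    have hne : i ≠ j := by
      rintro rfl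
      rw [Nat.beq_refl] at hij
      exact absurd hij (by simp)
    have ha : ∀ x y, x < 10 → y < 10 → Nat.testBit sg (10 * x + y) = true → 0 < D x y := by
      intro x y hx hy hb
      apply hs.sg x y
      simp only [pos, Bool.and_eq_true, Nat.blt_eq]
      exact ⟨hx, hy, hb⟩
    have key : ∀ i j, i < 10 → j < 10 → i ≠ j → 0 < D i j →
        Holds D ⟨sgAdd i j sg, lt, le, c3, c4, ex⟩ := by
      intro i j hi hj hne hp
      refine ⟨?_, hs.lt, hs.le, hs.c3, hs.c4, hs.ex⟩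
      intro x y hxy
      simp only [pos, Bool.and_eq_true, Nat.blt_eq] at hxy
      exact sgAdd_spec hD hi hj hne hp ha x y hxy.1 hxy.2.1 hxy.2.2
    rcases hD.gen i j hi hj hne with hp | hp
    · exact iht _ h1 (key i j hi hj hne hp)
    · exact ihu _ h2 (key j i hj hi (Ne.symm hne) hp)
  | pr i k t u iht ihu =>
    rintro ⟨sg, lt, le, c3, c4, ex⟩ h hs
    simp only [chk, Bool.and_eq_true] at h
    obtain ⟨h1, h2, h3, h4, h5⟩ := h
    have hp := hs.sg _ _ h3
    rcases lt_or_ge (D i (md (i + k + 1))) (D i (md (i + 1))) with g | g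
    · exact iht _ h4 (Holds.add_lt hD hs g)
    · rcases pair' hD (Nat.le_of_ble_eq_true h1) (Nat.le_of_ble_eq_true h2) hp with g2 | g2
      · exact absurd g2 (not_lt.2 g)
      · exact ihu _ h5 (Holds.add_le hD (Holds.add_lt hD hs g2) g)
  | ps i k t u iht ihu =>
    rintro ⟨sg, lt, le, c3, c4, ex⟩ h hs
    simp only [chk, Bool.and_eq_true] at h
    obtain ⟨h1, h2, h3, h4, h5⟩ := h
    have hp := hs.sg _ _ h3
    rcases lt_or_ge (D i (md (i + k + 1))) (D (md (i + k)) (md (i + k + 1))) with g | g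
    · exact iht _ h4 (Holds.add_lt hD hs g)
    · rcases pair' hD (Nat.le_of_ble_eq_true h1) (Nat.le_of_ble_eq_true h2) hp with g2 | g2
      · exact ihu _ h5 (Holds.add_le hD (Holds.add_lt hD hs g2) g)
      · exact absurd g2 (not_lt.2 g)
  | ch i t1 t2 t3 t4 ih1 ih2 ih3 ih4 =>
    rintro ⟨sg, lt, le, c3, c4, ex⟩ h hs
    simp only [chk, Bool.and_eq_true] at h
    obtain ⟨h1, h2, h3, h4, h5, h6⟩ := h
    have p1 := hs.sg _ _ h1
    have p2 := hs.sg _ _ h2
    have p1' := p1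
    have p2' := p2
    rw [perr hD] at p1'
    rw [permd hD] at p2'
    by_cases g1 : D i (md (i + 3)) < D i (md (i + 1))
    · exact ih1 _ h3 (Holds.add_lt hD hs g1)
    by_cases g2 : D (md (i + 2)) (md (i + 5)) < D (md (i + 4)) (md (i + 5))
    · exact ih2 _ h4 (Holds.add_lt hD hs g2)
    have q1 : D i (md (i + 3)) < D (md (i + 2)) (md (i + 3)) := by
      rcases pair' hD (i := i) (k := 2) (le_refl _) (by norm_num) p1 with g | g
      · exact absurd g g1
      · exact g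
    have q2 : D (md (i + 2)) (md (i + 5)) < D (md (i + 2)) (md (i + 3)) := by
      have hh := hD.pair (i + 2) 2 (le_refl _) (by norm_num) p2'
      rw [permd hD, permd hD] at g2
      rw [permd hD, permd hD]
      rcases hh with g | g
      · exact g
      · exact absurd g g2
    have hbase := Holds.add_lt hD (Holds.add_lt hD hs q2) q1
    have r1 := q1
    have r2 := q2
    rw [perr hD, permd hD] at r1
    rw [permd hD, permd hD] at r2
    rw [perr hD, perr hD] at g1
    rw [permd hD, permd hD] at g2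
    rcases hD.ch3 i p1' p2' with g | g | g | g
    · exact g1 g
    · exact g2 g
    · refine ih3 _ h5 ⟨hbase.sg, hbase.lt, hbase.le, ?_, hbase.c4, hbase.ex⟩
      intro j hj
      rcases List.mem_cons.1 hj with rfl | hj
      · exact ⟨g, r1, r2⟩
      · exact hs.c3 j hj
    · refine ih4 _ h6 ⟨hbase.sg, hbase.lt, hbase.le, hbase.c3, ?_, hbase.ex⟩
      intro j hj
      rcases List.mem_cons.1 hj with rfl | hj
      · exact g
      · exact hs.c4 j hj
  | cm a b c d t u iht ihu =>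
    rintro ⟨sg, lt, le, c3, c4, ex⟩ h hs
    simp only [chk, Bool.and_eq_true] at h
    obtain ⟨h1, h2⟩ := h
    rcases lt_or_ge (D a b) (D c d) with g | g
    · exact iht _ h1 (Holds.add_lt hD hs g)
    · exact ihu _ h2 (Holds.add_le hD hs g)
  | br a b c d p q t u iht ihu =>
    rintro ⟨sg, lt, le, c3, c4, ex⟩ h hs
    simp only [chk, Bool.and_eq_true] at h
    obtain ⟨h0, h1, h2⟩ := h
    split at h0
    · rename_i x y z e1 e2 e3
      simp only [Bool.and_eq_true, beq_iff_eq] at h0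
      obtain ⟨rfl, rfl⟩ := h0
      have e := plu_abs hD hs e1 e2 e3
      by_cases g : (q : ℝ) * (yv D (key a c) * yv D (key b d)) ≤
          ((p : ℝ) + q) * (yv D (key a b) * yv D (key c d))
      · refine iht _ h1 (Holds.add_ex hD hs ⟨?_, fun h => by simp at h⟩)
        simp only [mon, pow_one, mul_one]
        push_cast
        exact g
      · refine ihu _ h2 (Holds.add_ex hD hs ⟨?_, fun h => by simp at h⟩)
        simp only [mon, pow_one, mul_one]
        push_cast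
        push Not at g
        nlinarith
    · simp at h0
  | bc a b c p q t u iht ihu =>
    rintro ⟨sg, lt, le, c3, c4, ex⟩ h hs
    simp only [chk, Bool.and_eq_true] at h
    obtain ⟨e1, e2, e3, h1, h2⟩ := h
    have e := conv hD (hs.sg _ _ e1).le (hs.sg _ _ e2).le
    have y1 := yv_pos_key hD hs e1
    have y2 := yv_pos_key hD hs e2
    have y3 := yv_pos_key hD hs e3
    by_cases g : (q : ℝ) * D a c ≤ ((p : ℝ) + q) * D a b
    · refine iht _ h1 (Holds.add_ex hD hs ⟨?_, fun h => by simp at h⟩)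
      simp only [mon, pow_one, mul_one, y1, y3]
      push_cast
      exact g
    · refine ihu _ h2 (Holds.add_ex hD hs ⟨?_, fun h => by simp at h⟩)
      simp only [mon, pow_one, mul_one, y2, y3]
      push_cast
      push Not at g
      have hpq : (0 : ℝ) ≤ (p : ℝ) + q := by positivity
      have := mul_le_mul_of_nonneg_left e hpq
      linarith
  | bu i j k p q t u iht ihu =>
    rintro ⟨sg, lt, le, c3, c4, ex⟩ h hs
    simp only [chk, Bool.and_eq_true] at h
    obtain ⟨e1, e2, e3, h1, h2⟩ := h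
    have e := cen1 hD (hs.sg _ _ e1).le (hs.sg _ _ e2).le
    have y1 := yv_pos_key hD hs e1
    have y2 := yv_pos_key hD hs e2
    have y3 := yv_pos_key hD hs e3
    by_cases g : (q : ℝ) * D j k ≤ ((p : ℝ) + q) * D i k
    · refine iht _ h1 (Holds.add_ex hD hs ⟨?_, fun h => by simp at h⟩)
      simp only [mon, pow_one, mul_one, y2, y3]
      push_cast
      exact g
    · refine ihu _ h2 (Holds.add_ex hD hs ⟨?_, fun h => by simp at h⟩)
      simp only [mon, pow_one, mul_one, y1, y3]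
      push_cast
      push Not at g
      have hpq : (0 : ℝ) ≤ (p : ℝ) + q := by positivity
      have := mul_le_mul_of_nonneg_left e hpq
      linarith
  | bv i j k p q t u iht ihu =>
    rintro ⟨sg, lt, le, c3, c4, ex⟩ h hs
    simp only [chk, Bool.and_eq_true] at h
    obtain ⟨e1, e2, e3, h1, h2⟩ := h
    have e := cen1' hD (hs.sg _ _ e1).le (hs.sg _ _ e2).le
    have y1 := yv_pos_key hD hs e1
    have y2 := yv_pos_key hD hs e2
    have y3 := yv_pos_key hD hs e3
    by_cases g : (q : ℝ) * D k j ≤ ((p : ℝ) + q) * D k i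
    · refine iht _ h1 (Holds.add_ex hD hs ⟨?_, fun h => by simp at h⟩)
      simp only [mon, pow_one, mul_one, y2, y3]
      push_cast
      exact g
    · refine ihu _ h2 (Holds.add_ex hD hs ⟨?_, fun h => by simp at h⟩)
      simp only [mon, pow_one, mul_one, y1, y3]
      push_cast
      push Not at g
      have hpq : (0 : ℝ) ≤ (p : ℝ) + q := by positivity
      have := mul_le_mul_of_nonneg_left e hpq
      linarith
  | bt i j k p q t u iht ihu =>
    rintro ⟨sg, lt, le, c3, c4, ex⟩ h hs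
    simp only [chk, Bool.and_eq_true] at h
    obtain ⟨e1, e2, e3, h1, h2⟩ := h
    have e := cen3 hD (hs.sg _ _ e1).le (hs.sg _ _ e2).le
    have y1 := yv_pos_key hD hs e1
    have y2 := yv_pos_key hD hs e2
    have y3 := yv_pos_key hD hs e3
    by_cases g : 10 * (q : ℝ) * D j k ≤ 31 * ((p : ℝ) + q) * D k i
    · refine iht _ h1 (Holds.add_ex hD hs ⟨?_, fun h => by simp at h⟩)
      simp only [mon, pow_one, mul_one, y2, y3]
      push_cast
      exact g
    · refine ihu _ h2 (Holds.add_ex hD hs ⟨?_, fun h => by simp at h⟩)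
      simp only [mon, pow_one, mul_one, y1, y3]
      push_cast
      push Not at g
      have hpq : (0 : ℝ) ≤ (p : ℝ) + q := by positivity
      have := mul_le_mul_of_nonneg_left e hpq
      linarith

end

end Pool.Agent.H292.TW.Chk
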