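import Mathlib

/-!
Project TW (helper221), S_planar: a reflective checker for case trees whose leaves are
multiplicative certificates in the `|D i j|`.
-/

set_option autoImplicit false

namespace Pool.Agent.H292.TW.Chk

/-- the abstract configuration -/
structure Cfg (D : ℕ → ℕ → ℝ) : Prop where
  anti : ∀ i j, D i j = - D j i
  plu : ∀ a b c d, D a b * D c d - D a c * D b d + D a d * D b c = 0
  per : ∀ i j, D (i + 10) j = D i j
  gen : ∀ i j, i < 10 → j < 10 → i ≠ j → 0 < D i j ∨ 0 < D j i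
  ord : ∀ i m m' n, m < m' → m' ≤ n → n < 10 → 0 < D i (i + n) → 0 < D (i + m) (i + m')
  sup : ∀ a, ∃ f : ℕ → ℝ, (∀ j, f j ≤ 1) ∧ (∀ j, -(31 / 10) ≤ f j) ∧ f a = 1 ∧
    ∀ j k, D j k = D a k * f j - D a j * f k
  pair : ∀ i k, 2 ≤ k → k ≤ 8 → 0 < D i (i + k + 1) →
    D i (i + k + 1) < D i (i + 1) ∨ D i (i + k + 1) < D (i + k) (i + k + 1)
  ch3 : ∀ i, 0 < D i (i + 3) → 0 < D (i + 2) (i + 5) →
    D i (i + 3) < D i (i + 1) ∨ D (i + 2) (i + 5) < D (i + 4) (i + 5) ∨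
    D i (i + 3) + D (i + 2) (i + 5) < 101 / 100 * D (i + 2) (i + 3) + D i (i + 5) ∨
    D (i + 1) (i + 2) * D (i + 3) (i + 4) < 101 / 100 * (D i (i + 1) * D (i + 4) (i + 5))

/-! ### monomials -/

abbrev Mon := List (ℕ × ℕ)

def B : ℕ := 1048576

def enc : Mon → ℕ
  | [] => 0
  | q :: L => q.2 * B ^ q.1 + enc L

def tot : Mon → ℕ
  | [] => 0
  | q :: L => q.2 + tot L

def cf : Mon → ℕ → ℕ
  | [], _ => 0
  | q :: L, k => (if q.1 = k then q.2 else 0) + cf L k

noncomputable def mon (y : ℕ → ℝ) : Mon → ℝ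
  | [] => 1
  | q :: L => y q.1 ^ q.2 * mon y L

def kok : Mon → Bool
  | [] => true
  | q :: L => Nat.blt q.1 100 && kok L

theorem enc_eq : ∀ L : Mon, kok L = true → enc L = ∑ k ∈ Finset.range 100, cf L k * B ^ k
  | [], _ => by simp [enc, cf]
  | q :: L, h => by
    simp only [kok, Bool.and_eq_true] at h
    have h1 : q.1 < 100 := by simpa [Nat.blt_eq] using h.1
    rw [enc, enc_eq L h.2]
    simp only [cf, add_mul, Finset.sum_add_distrib, ite_mul, zero_mul]
    rw [Finset.sum_ite_eq, if_pos (Finset.mem_range.2 h1)]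

theorem mon_eq (y : ℕ → ℝ) : ∀ L : Mon, kok L = true →
    mon y L = ∏ k ∈ Finset.range 100, y k ^ cf L k
  | [], _ => by simp [mon, cf]
  | q :: L, h => by
    simp only [kok, Bool.and_eq_true] at h
    have h1 : q.1 < 100 := by simpa [Nat.blt_eq] using h.1
    rw [mon, mon_eq y L h.2]
    simp only [cf, pow_add, Finset.prod_mul_distrib]
    congr 1
    rw [Finset.prod_eq_single q.1]
    · simp
    · intro k _ hk; simp [Ne.symm hk]
    · intro hk; exact absurd (Finset.mem_range.2 h1) hk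

theorem cf_le : ∀ (L : Mon) (k : ℕ), cf L k ≤ tot L
  | [], _ => by simp [cf, tot]
  | q :: L, k => by
    have := cf_le L k
    simp only [cf, tot]
    split_ifs <;> omega

theorem mon_pos (y : ℕ → ℝ) (hy : ∀ k, 0 < y k) : ∀ L : Mon, 0 < mon y L
  | [] => by simp [mon]
  | q :: L => by
    have h1 := mon_pos y hy L
    have h2 := hy q.1
    rw [mon]; positivity

structure Ineq where
  l : Mon
  r : Mon
  a : ℕ
  b : ℕ
  st : Bool

def Ineq.holds (y : ℕ → ℝ) (I : Ineq) : Prop :=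
  (I.a : ℝ) * mon y I.l ≤ I.b * mon y I.r ∧
    (I.st = true → (I.a : ℝ) * mon y I.l < I.b * mon y I.r)

/-- accumulator for a leaf -/
structure Acc where
  el : ℕ
  er : ℕ
  tl : ℕ
  tr : ℕ
  pa : ℕ
  pb : ℕ
  st : Bool
  ok : Bool

def acc : List (ℕ × Ineq) → Acc
  | [] => ⟨0, 0, 0, 0, 1, 1, false, true⟩
  | w :: W =>
    let A := acc W
    ⟨w.1 * enc w.2.l + A.el, w.1 * enc w.2.r + A.er, w.1 * tot w.2.l + A.tl,
      w.1 * tot w.2.r + A.tr, w.2.a ^ w.1 * A.pa, w.2.b ^ w.1 * A.pb,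
      (Nat.blt 0 w.1 && w.2.st) || A.st, (kok w.2.l && kok w.2.r && Nat.blt 0 w.2.b) && A.ok⟩

def leafOk (W : List (ℕ × Ineq)) : Bool :=
  let A := acc W
  A.ok && Nat.beq A.el A.er && Nat.blt A.tl B && Nat.blt A.tr B &&
    (Nat.blt A.pb A.pa || (Nat.beq A.pb A.pa && A.st))

theorem inj_aux (n : ℕ) : ∀ c : ℕ → ℤ, (∀ k, |c k| < (B : ℤ)) →
    ∑ k ∈ Finset.range n, c k * (B : ℤ) ^ k = 0 → ∀ k < n, c k = 0 := by
  induction n with
  | zero => intro c _ _ k hk; omega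
  | succ n ih =>
    intro c hc hs
    rw [Finset.sum_range_succ'] at hs
    have h1 : ∑ k ∈ Finset.range n, c (k + 1) * (B : ℤ) ^ (k + 1) =
        (B : ℤ) * ∑ k ∈ Finset.range n, c (k + 1) * (B : ℤ) ^ k := by
      rw [Finset.mul_sum]
      apply Finset.sum_congr rfl
      intro k _; ring
    rw [h1, pow_zero, mul_one] at hs
    have h0 : c 0 = 0 := by
      have hd : (B : ℤ) ∣ c 0 := ⟨-∑ k ∈ Finset.range n, c (k + 1) * (B : ℤ) ^ k, by linarith⟩
      exact Int.eq_zero_of_abs_lt_dvd hd (hc 0)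
    have h2 : ∑ k ∈ Finset.range n, c (k + 1) * (B : ℤ) ^ k = 0 := by
      rw [h0, add_zero] at hs
      rcases mul_eq_zero.1 hs with h3 | h3
      · exact absurd h3 (by norm_num [B])
      · exact h3
    have h3 := ih (fun k => c (k + 1)) (fun k => hc _) h2
    intro k hk
    rcases k with _ | k
    · exact h0
    · exact h3 k (by omega)

theorem inj {c d : ℕ → ℕ} (hc : ∀ k, c k < B) (hd : ∀ k, d k < B)
    (h : ∑ k ∈ Finset.range 100, c k * B ^ k = ∑ k ∈ Finset.range 100, d k * B ^ k) :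
    ∀ k < 100, c k = d k := by
  have h1 := inj_aux 100 (fun k => (c k : ℤ) - d k) (fun k => by
    have h2 := hc k
    have h3 := hd k
    rw [abs_lt]; constructor <;> omega) (by
      simp only [sub_mul, Finset.sum_sub_distrib]
      rw [sub_eq_zero]
      exact_mod_cast h)
  intro k hk
  have := h1 k hk
  have h2 : (c k : ℤ) - d k = 0 := this
  omega

/-- weighted data of a leaf -/
def wl : List (ℕ × Ineq) → ℕ → ℕ
  | [], _ => 0
  | w :: W, k => w.1 * cf w.2.l k + wl W k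

def wr : List (ℕ × Ineq) → ℕ → ℕ
  | [], _ => 0
  | w :: W, k => w.1 * cf w.2.r k + wr W k

theorem acc_el : ∀ W : List (ℕ × Ineq), (acc W).ok = true →
    (acc W).el = ∑ k ∈ Finset.range 100, wl W k * B ^ k ∧
    (acc W).er = ∑ k ∈ Finset.range 100, wr W k * B ^ k ∧
    (∀ k, wl W k ≤ (acc W).tl) ∧ (∀ k, wr W k ≤ (acc W).tr)
  | [], _ => by simp [acc, wl, wr]
  | w :: W, h => by
    simp only [acc, Bool.and_eq_true] at h
    obtain ⟨⟨⟨h1, h2⟩, _⟩, h3⟩ := h
    obtain ⟨i1, i2, i3, i4⟩ := acc_el W h3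
    refine ⟨?_, ?_, ?_, ?_⟩
    · simp only [acc, wl]
      rw [i1, enc_eq _ h1, Finset.mul_sum, ← Finset.sum_add_distrib]
      apply Finset.sum_congr rfl; intro k _; ring
    · simp only [acc, wr]
      rw [i2, enc_eq _ h2, Finset.mul_sum, ← Finset.sum_add_distrib]
      apply Finset.sum_congr rfl; intro k _; ring
    · intro k
      simp only [acc, wl]
      exact Nat.add_le_add (Nat.mul_le_mul_left _ (cf_le _ _)) (i3 k)
    · intro k
      simp only [acc, wr]
      exact Nat.add_le_add (Nat.mul_le_mul_left _ (cf_le _ _)) (i4 k)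

theorem acc_main (y : ℕ → ℝ) (hy : ∀ k, 0 < y k) : ∀ W : List (ℕ × Ineq), (acc W).ok = true →
    (∀ w ∈ W, w.2.holds y) →
    0 < (acc W).pb ∧
    ((acc W).pa : ℝ) * ∏ k ∈ Finset.range 100, y k ^ wl W k ≤
      (acc W).pb * ∏ k ∈ Finset.range 100, y k ^ wr W k ∧
    ((acc W).st = true → ((acc W).pa : ℝ) * ∏ k ∈ Finset.range 100, y k ^ wl W k <
      (acc W).pb * ∏ k ∈ Finset.range 100, y k ^ wr W k)
  | [], _, _ => by simp [acc, wl, wr]
  | w :: W, h, hw => by
    simp only [acc, Bool.and_eq_true] at h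
    obtain ⟨⟨⟨h1, h2⟩, h4⟩, h3⟩ := h
    obtain ⟨i0, i1, i2⟩ := acc_main y hy W h3 (fun v hv => hw v (List.mem_cons_of_mem _ hv))
    obtain ⟨j1, j2⟩ := hw w List.mem_cons_self
    have hb : 0 < w.2.b := by simpa [Nat.blt_eq] using h4
    have hb' : (0 : ℝ) < w.2.b := by exact_mod_cast hb
    have hi0 : (0 : ℝ) < (acc W).pb := by exact_mod_cast i0
    have e1 : ∏ k ∈ Finset.range 100, y k ^ wl (w :: W) k =
        mon y w.2.l ^ w.1 * ∏ k ∈ Finset.range 100, y k ^ wl W k := by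
      rw [mon_eq y _ h1, ← Finset.prod_pow, ← Finset.prod_mul_distrib]
      apply Finset.prod_congr rfl; intro k _
      rw [wl, pow_add, ← pow_mul, mul_comm w.1]
    have e2 : ∏ k ∈ Finset.range 100, y k ^ wr (w :: W) k =
        mon y w.2.r ^ w.1 * ∏ k ∈ Finset.range 100, y k ^ wr W k := by
      rw [mon_eq y _ h2, ← Finset.prod_pow, ← Finset.prod_mul_distrib]
      apply Finset.prod_congr rfl; intro k _
      rw [wr, pow_add, ← pow_mul, mul_comm w.1]
    have p1 : 0 < ∏ k ∈ Finset.range 100, y k ^ wl W k :=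
      Finset.prod_pos fun k _ => pow_pos (hy k) _
    have p2 : 0 < ∏ k ∈ Finset.range 100, y k ^ wr W k :=
      Finset.prod_pos fun k _ => pow_pos (hy k) _
    have q1 := mon_pos y hy w.2.l
    have q2 := mon_pos y hy w.2.r
    rw [e1, e2]
    simp only [acc]
    push_cast
    have r1 : ((w.2.a : ℝ) * mon y w.2.l) ^ w.1 ≤ (w.2.b * mon y w.2.r) ^ w.1 :=
      pow_le_pow_left₀ (by positivity) j1 _
    have s1 : (0 : ℝ) < (w.2.b * mon y w.2.r) ^ w.1 := by positivity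
    have t1 : (0 : ℝ) ≤ ((w.2.a : ℝ) * mon y w.2.l) ^ w.1 := by positivity
    have u1 : (0 : ℝ) ≤ ((acc W).pa : ℝ) * ∏ k ∈ Finset.range 100, y k ^ wl W k := by positivity
    have v1 : (0 : ℝ) < ((acc W).pb : ℝ) * ∏ k ∈ Finset.range 100, y k ^ wr W k := by positivity
    have f1 : ((w.2.a : ℝ) ^ w.1 * (acc W).pa) * (mon y w.2.l ^ w.1 *
        ∏ k ∈ Finset.range 100, y k ^ wl W k) = ((w.2.a : ℝ) * mon y w.2.l) ^ w.1 *
        (((acc W).pa : ℝ) * ∏ k ∈ Finset.range 100, y k ^ wl W k) := by rw [mul_pow]; ring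
    have f2 : ((w.2.b : ℝ) ^ w.1 * (acc W).pb) * (mon y w.2.r ^ w.1 *
        ∏ k ∈ Finset.range 100, y k ^ wr W k) = ((w.2.b : ℝ) * mon y w.2.r) ^ w.1 *
        (((acc W).pb : ℝ) * ∏ k ∈ Finset.range 100, y k ^ wr W k) := by rw [mul_pow]; ring
    rw [f1, f2]
    refine ⟨by positivity, mul_le_mul r1 i1 u1 s1.le, ?_⟩
    intro hst
    simp only [Bool.or_eq_true, Bool.and_eq_true] at hst
    rcases hst with ⟨g1, g2⟩ | g
    · have g3 : w.1 ≠ 0 := by
        have : 0 < w.1 := by simpa [Nat.blt_eq] using g1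
        omega
      have r2 : ((w.2.a : ℝ) * mon y w.2.l) ^ w.1 < (w.2.b * mon y w.2.r) ^ w.1 :=
        pow_lt_pow_left₀ (j2 g2) (by positivity) g3
      calc _ ≤ ((w.2.a : ℝ) * mon y w.2.l) ^ w.1 *
            (((acc W).pb : ℝ) * ∏ k ∈ Finset.range 100, y k ^ wr W k) :=
            mul_le_mul_of_nonneg_left i1 t1
        _ < _ := mul_lt_mul_of_pos_right r2 v1
    · calc _ ≤ (w.2.b * mon y w.2.r) ^ w.1 *
            (((acc W).pa : ℝ) * ∏ k ∈ Finset.range 100, y k ^ wl W k) :=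
            mul_le_mul_of_nonneg_right r1 u1
        _ < _ := mul_lt_mul_of_pos_left (i2 g) s1

theorem leaf_false (y : ℕ → ℝ) (hy : ∀ k, 0 < y k) (W : List (ℕ × Ineq))
    (hW : leafOk W = true) (hw : ∀ w ∈ W, w.2.holds y) : False := by
  simp only [leafOk, Bool.and_eq_true, Bool.or_eq_true] at hW
  obtain ⟨⟨⟨⟨h1, h2⟩, h3⟩, h4⟩, h5⟩ := hW
  obtain ⟨i1, i2, i3, i4⟩ := acc_el W h1
  obtain ⟨j0, j1, j2⟩ := acc_main y hy W h1 hw
  have h2' : (acc W).el = (acc W).er := Nat.eq_of_beq_eq_true h2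
  have h3' : (acc W).tl < B := by simpa [Nat.blt_eq] using h3
  have h4' : (acc W).tr < B := by simpa [Nat.blt_eq] using h4
  rw [i1, i2] at h2'
  have h6 := inj (fun k => (i3 k).trans_lt h3') (fun k => (i4 k).trans_lt h4') h2'
  have e : ∏ k ∈ Finset.range 100, y k ^ wl W k = ∏ k ∈ Finset.range 100, y k ^ wr W k := by
    apply Finset.prod_congr rfl
    intro k hk; rw [h6 k (Finset.mem_range.1 hk)]
  have p2 : 0 < ∏ k ∈ Finset.range 100, y k ^ wr W k :=
    Finset.prod_pos fun k _ => pow_pos (hy k) _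
  rw [e] at j1 j2
  rcases h5 with h5 | ⟨h5, h7⟩
  · have h5' : (acc W).pb < (acc W).pa := by simpa [Nat.blt_eq] using h5
    have h8 : ((acc W).pb : ℝ) < (acc W).pa := by exact_mod_cast h5'
    have := mul_lt_mul_of_pos_right h8 p2
    linarith
  · have h5' : (acc W).pb = (acc W).pa := Nat.eq_of_beq_eq_true h5
    have := j2 h7
    rw [h5'] at this
    exact lt_irrefl _ this

end Pool.Agent.H292.TW.Chk
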