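import Pool.Agent.H292.TW.Chk

/-!
Project TW (helper221), S_planar: facts, rules, trees and soundness of the checker.
-/

set_option autoImplicit false

namespace Pool.Agent.H292.TW.Chk

def nth : List Ineq → ℕ → Option Ineq
  | [], _ => none
  | I :: _, 0 => some I
  | _ :: L, n + 1 => nth L n

theorem nth_mem {I : Ineq} : ∀ {L : List Ineq} {n : ℕ}, nth L n = some I → I ∈ L
  | [], _, h => by simp [nth] at h
  | J :: L, 0, h => by
    simp only [nth, Option.some.injEq] at h
    subst h; exact List.mem_cons_self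
  | J :: L, n + 1, h => by
    simp only [nth] at h
    exact List.mem_cons_of_mem _ (nth_mem h)

/-! ### weighted AM-GM in integral form -/

theorem amgm3 {X Y Z : ℝ} (hX : 0 ≤ X) (hY : 0 ≤ Y) (hZ : 0 ≤ Z) (k l n : ℕ) :
    ((k + l + n : ℕ) : ℝ) ^ (k + l + n) * (X ^ k * Y ^ l * Z ^ n) ≤
      ((k : ℝ) ^ k * (l : ℝ) ^ l * (n : ℝ) ^ n) * (X + Y + Z) ^ (k + l + n) := by
  rcases Nat.eq_zero_or_pos (k + l + n) with h0 | hm
  · have h1 : k = 0 := by omega
    have h2 : l = 0 := by omega
    have h3 : n = 0 := by omega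
    subst h1 h2 h3; simp
  set m := k + l + n with hmdef
  have hm' : (0 : ℝ) < m := by exact_mod_cast hm
  have key := Real.geom_mean_le_arith_mean3_weighted (w₁ := (k : ℝ) / m) (w₂ := (l : ℝ) / m)
    (w₃ := (n : ℝ) / m) (p₁ := X / k) (p₂ := Y / l) (p₃ := Z / n)
    (by positivity) (by positivity) (by positivity) (by positivity) (by positivity) (by positivity)
    (by rw [← add_div, ← add_div, div_eq_one_iff_eq hm'.ne', hmdef]; push_cast; ring)
  have hle : ∀ (a : ℕ) (T : ℝ), 0 ≤ T → (a : ℝ) / m * (T / a) ≤ T / m := by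
    intro a T hT
    rcases Nat.eq_zero_or_pos a with rfl | ha
    · simp; positivity
    · have : (0 : ℝ) < a := by exact_mod_cast ha
      apply le_of_eq; field_simp
  have h1 : (X / k) ^ ((k : ℝ) / m) * (Y / l) ^ ((l : ℝ) / m) * (Z / n) ^ ((n : ℝ) / m) ≤
      (X + Y + Z) / m := by
    refine key.trans ?_
    have e1 := hle k X hX
    have e2 := hle l Y hY
    have e3 := hle n Z hZ
    have e4 : (X + Y + Z) / (m : ℝ) = X / m + Y / m + Z / m := by ring
    linarith
  have hpw : ∀ (a : ℕ) (T : ℝ), 0 ≤ T → ((T / a) ^ ((a : ℝ) / m)) ^ m = (T / a) ^ a := by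
    intro a T hT
    rw [← Real.rpow_natCast, ← Real.rpow_mul (by positivity), div_mul_cancel₀ _ hm'.ne',
      Real.rpow_natCast]
  have h2 := pow_le_pow_left₀ (by positivity) h1 m
  rw [mul_pow, mul_pow, hpw k X hX, hpw l Y hY, hpw n Z hZ, div_pow, div_pow, div_pow,
    div_pow] at h2
  have hpp : ∀ a : ℕ, (0 : ℝ) < (a : ℝ) ^ a := by
    intro a
    rcases Nat.eq_zero_or_pos a with rfl | ha
    · simp
    · have : (0 : ℝ) < a := by exact_mod_cast ha
      positivity
  have pk := hpp k
  have pl := hpp l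
  have pn := hpp n
  have pm := hpp m
  rw [div_mul_div_comm, div_mul_div_comm, div_le_div_iff₀ (by positivity) pm] at h2
  calc _ = X ^ k * Y ^ l * Z ^ n * (m : ℝ) ^ m := by ring
    _ ≤ _ := h2
    _ = _ := by ring

theorem amgm2 {X Y : ℝ} (hX : 0 ≤ X) (hY : 0 ≤ Y) (k l : ℕ) :
    ((k + l : ℕ) : ℝ) ^ (k + l) * (X ^ k * Y ^ l) ≤
      ((k : ℝ) ^ k * (l : ℝ) ^ l) * (X + Y) ^ (k + l) := by
  have h := amgm3 hX hY (le_refl (0 : ℝ)) k l 0
  simpa using h

/-! ### state -/

structure St where
  sg : ℕ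
  lt : List (ℕ × ℕ × ℕ × ℕ)
  le : List (ℕ × ℕ × ℕ × ℕ)
  c3 : List ℕ
  c4 : List ℕ
  ex : List Ineq

def pos (s : St) (i j : ℕ) : Bool :=
  Nat.blt i 10 && (Nat.blt j 10 && Nat.testBit s.sg (10 * i + j))

def memb (a : ℕ) : List ℕ → Bool
  | [] => false
  | b :: L => Nat.beq a b || memb a L

def mem4 (a b c d : ℕ) : List (ℕ × ℕ × ℕ × ℕ) → Bool
  | [] => false
  | q :: L => (Nat.beq a q.1 && (Nat.beq b q.2.1 && (Nat.beq c q.2.2.1 && Nat.beq d q.2.2.2))) ||
    mem4 a b c d L

theorem memb_mem {a : ℕ} : ∀ {L : List ℕ}, memb a L = true → a ∈ L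
  | [], h => by simp [memb] at h
  | b :: L, h => by
    simp only [memb, Bool.or_eq_true] at h
    rcases h with h | h
    · rw [Nat.eq_of_beq_eq_true h]; exact List.mem_cons_self
    · exact List.mem_cons_of_mem _ (memb_mem h)

theorem mem4_mem {a b c d : ℕ} : ∀ {L : List (ℕ × ℕ × ℕ × ℕ)}, mem4 a b c d L = true →
    (a, b, c, d) ∈ L
  | [], h => by simp [mem4] at h
  | q :: L, h => by
    simp only [mem4, Bool.or_eq_true, Bool.and_eq_true] at h
    rcases h with ⟨h1, h2, h3, h4⟩ | h
    · have e : (a, b, c, d) = q := by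
        rw [Nat.eq_of_beq_eq_true h1, Nat.eq_of_beq_eq_true h2, Nat.eq_of_beq_eq_true h3,
          Nat.eq_of_beq_eq_true h4]
      rw [e]; exact List.mem_cons_self
    · exact List.mem_cons_of_mem _ (mem4_mem h)

def md (n : ℕ) : ℕ := n % 10

def key (i j : ℕ) : ℕ := if Nat.blt i j then 10 * i + j else 10 * j + i

open Classical in
/-- the positive values of the monomial variables -/
noncomputable def yv (D : ℕ → ℕ → ℝ) (k : ℕ) : ℝ :=
  if D (k / 10) (k % 10) = 0 then 1 else |D (k / 10) (k % 10)|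

theorem yv_pos (D : ℕ → ℕ → ℝ) (k : ℕ) : 0 < yv D k := by
  unfold yv
  split_ifs with h
  · exact one_pos
  · exact abs_pos.2 h

section
variable {D : ℕ → ℕ → ℝ} (hD : Cfg D)
include hD

theorem yv_key {i j : ℕ} (hi : i < 10) (hj : j < 10) (h : 0 < D i j) : yv D (key i j) = D i j := by
  unfold key
  split_ifs with hij
  · have e1 : (10 * i + j) / 10 = i := by omega
    have e2 : (10 * i + j) % 10 = j := by omega
    unfold yv
    rw [e1, e2, if_neg h.ne', abs_of_pos h]
  · have e1 : (10 * j + i) / 10 = j := by omega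
    have e2 : (10 * j + i) % 10 = i := by omega
    have h' : D j i = - D i j := hD.anti j i
    unfold yv
    rw [e1, e2, if_neg (by rw [h']; linarith), h', abs_neg, abs_of_pos h]

theorem key_comm (i j : ℕ) : key i j = key j i := by
  unfold key
  simp only [Nat.blt_eq]
  split_ifs <;> omega

theorem perl (i j : ℕ) : D (md i) j = D i j := by
  unfold md
  induction i using Nat.strong_induction_on with
  | _ i ih =>
    rcases lt_or_ge i 10 with h | h
    · rw [Nat.mod_eq_of_lt h]
    · have e := ih (i - 10) (by omega)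
      have e1 : (i - 10) % 10 = i % 10 := by omega
      rw [e1] at e
      rw [e]
      have e2 := hD.per (i - 10) j
      rw [show i - 10 + 10 = i by omega] at e2
      exact e2.symm

theorem permd (i j : ℕ) : D (md i) (md j) = D i j := by
  rw [perl hD, hD.anti, perl hD, ← hD.anti]

end

structure Holds (D : ℕ → ℕ → ℝ) (s : St) : Prop where
  sg : ∀ i j, pos s i j = true → 0 < D i j
  lt : ∀ q ∈ s.lt, D q.1 q.2.1 < D q.2.2.1 q.2.2.2
  le : ∀ q ∈ s.le, D q.1 q.2.1 ≤ D q.2.2.1 q.2.2.2
  c3 : ∀ i ∈ s.c3, D i (i + 3) + D (i + 2) (i + 5) < 101 / 100 * D (i + 2) (i + 3) + D i (i + 5) ∧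
    D i (i + 3) < D (i + 2) (i + 3) ∧ D (i + 2) (i + 5) < D (i + 2) (i + 3)
  c4 : ∀ i ∈ s.c4, D (i + 1) (i + 2) * D (i + 3) (i + 4) <
    101 / 100 * (D i (i + 1) * D (i + 4) (i + 5))
  ex : ∀ I ∈ s.ex, I.holds (yv D)

/-! ### signs -/

/-- sign of `D i j`: `some true` if positive, `some false` if negative -/
def sgr (s : St) (i j : ℕ) : Option Bool :=
  if pos s i j then some true else if pos s j i then some false else none

/-- sign of the product `D a b * D c d` -/
def psg (s : St) (a b c d : ℕ) : Option Bool :=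
  match sgr s a b, sgr s c d with
  | some x, some y => some (x == y)
  | _, _ => none

theorem pos_lt {s : St} {i j : ℕ} (h : pos s i j = true) : i < 10 ∧ j < 10 := by
  unfold pos at h
  simp only [Bool.and_eq_true, Nat.blt_eq] at h
  exact ⟨h.1, h.2.1⟩

section
variable {D : ℕ → ℕ → ℝ} (hD : Cfg D) {s : St} (hs : Holds D s)
include hD hs

theorem yv_pos_key {i j : ℕ} (h : pos s i j = true) : yv D (key i j) = D i j :=
  yv_key hD (pos_lt h).1 (pos_lt h).2 (hs.sg i j h)

theorem sgr_spec {i j : ℕ} {x : Bool} (h : sgr s i j = some x) :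
    yv D (key i j) = |D i j| ∧ (x = true → 0 < D i j) ∧ (x = false → D i j < 0) := by
  unfold sgr at h
  split_ifs at h with h1 h2
  · have h3 := hs.sg _ _ h1
    injection h with h4
    subst h4
    exact ⟨by rw [yv_pos_key hD hs h1, abs_of_pos h3], fun _ => h3, fun h => by simp at h⟩
  · have h3 := hs.sg _ _ h2
    have h5 : D i j < 0 := by rw [hD.anti]; linarith
    injection h with h4
    subst h4
    refine ⟨?_, fun h => by simp at h, fun _ => h5⟩
    rw [key_comm hD, yv_pos_key hD hs h2, hD.anti i j, abs_neg, abs_of_pos h3]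

theorem psg_spec {a b c d : ℕ} {x : Bool} (h : psg s a b c d = some x) :
    yv D (key a b) * yv D (key c d) = |D a b * D c d| ∧ (x = true → 0 < D a b * D c d) ∧
      (x = false → D a b * D c d < 0) := by
  unfold psg at h
  split at h
  · rename_i u v h1 h2
    obtain ⟨a1, a2, a3⟩ := sgr_spec hD hs h1
    obtain ⟨b1, b2, b3⟩ := sgr_spec hD hs h2
    injection h with h4
    subst h4
    refine ⟨by rw [a1, b1, abs_mul], ?_, ?_⟩
    · intro h
      rcases u <;> rcases v <;> simp at h a2 a3 b2 b3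
      · exact mul_pos_of_neg_of_neg a3 b3
      · exact mul_pos a2 b2
    · intro h
      rcases u <;> rcases v <;> simp at h a2 a3 b2 b3
      · exact mul_neg_of_neg_of_pos a3 b2
      · exact mul_neg_of_pos_of_neg a2 b3
  · simp at h

/-- Plücker in absolute values -/
theorem plu_abs {a b c d : ℕ} {x : Bool} (h1 : psg s a b c d = some x)
    (h2 : psg s a c b d = some x) (h3 : psg s a d b c = some x) :
    yv D (key a c) * yv D (key b d) =
      yv D (key a b) * yv D (key c d) + yv D (key a d) * yv D (key b c) := by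
  obtain ⟨a1, a2, a3⟩ := psg_spec hD hs h1
  obtain ⟨b1, b2, b3⟩ := psg_spec hD hs h2
  obtain ⟨c1, c2, c3⟩ := psg_spec hD hs h3
  rw [a1, b1, c1]
  have hp := hD.plu a b c d
  rcases x
  · rw [abs_of_neg (a3 rfl), abs_of_neg (b3 rfl), abs_of_neg (c3 rfl)]; linarith
  · rw [abs_of_pos (a2 rfl), abs_of_pos (b2 rfl), abs_of_pos (c2 rfl)]; linarith

end

/-! ### facts -/

inductive Fact
  /-- `|ab||cd| < |ac||bd|` -/
  | pl (a b c d : ℕ)
  /-- AM-GM: `|ab|^k |cd|^k |ad|^l |bc|^l (k+l)^(k+l) ≤ k^k l^l |ac|^(k+l) |bd|^(k+l)` -/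
  | am (a b c d k l : ℕ)
  /-- known strict comparison -/
  | lt (a b c d : ℕ)
  /-- known comparison -/
  | le (a b c d : ℕ)
  /-- `D(a,k') < D(a,j')` from `D(i,k) < D(i,j)` -/
  | rt (i j k a j' k' : ℕ)
  /-- `D(i',a) < D(j',a)` from `D(i,k) < D(j,k)` -/
  | lf (i j k a i' j' : ℕ)
  /-- `D(e,g) ≤ 3.1 D(a,e)` from `D(i,k) < D(j,k)` -/
  | ce (i j k a e g : ℕ)
  /-- `D(g,a) ≤ 3.1 D(a,e)` from `D(i,k) < D(i,j)` -/
  | cf (i j k a e g : ℕ)
  /-- fourth alternative of CH3 -/
  | c4 (i : ℕ)
  /-- third alternative of CH3, `D(i,i+5) < 0` -/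
  | c3 (i k l n : ℕ)
  /-- third alternative of CH3: `PQ + UA < 1.01 U^2` -/
  | ta (i k l : ℕ)
  /-- third alternative of CH3: `PQ + UB < 1.01 U^2` -/
  | tb (i k l : ℕ)
  /-- an inequality added by a branching node -/
  | ex (n : ℕ)

def okR (s : St) (i j k a j' k' : ℕ) : Bool :=
  pos s i j && (pos s j k && (pos s i k && (mem4 i k i j s.lt &&
  ((Nat.beq a i || pos s a i) && (pos s a j && (pos s a k &&
  ((Nat.beq k' k || pos s k k') && (pos s j k' && (pos s a k' &&
  ((Nat.beq j' j || pos s j j') && (pos s j' k' && pos s a j')))))))))))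

def okL (s : St) (i j k a i' j' : ℕ) : Bool :=
  pos s i j && (pos s j k && (pos s i k && (mem4 i k j k s.lt &&
  ((Nat.beq a k || pos s k a) && (pos s j a && (pos s i a &&
  ((Nat.beq i' i || pos s i' i) && (pos s i' j && (pos s i' a &&
  ((Nat.beq j' j || pos s j' j) && (pos s i' j' && pos s j' a)))))))))))

def ev (s : St) : Fact → Option Ineq
  | .pl a b c d =>
    match psg s a b c d, psg s a c b d, psg s a d b c with
    | some x, some y, some z =>
      if (x == y && y == z) then
        some ⟨[(key a b, 1), (key c d, 1)], [(key a c, 1), (key b d, 1)], 1, 1, true⟩ else none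
    | _, _, _ => none
  | .am a b c d k l =>
    match psg s a b c d, psg s a c b d, psg s a d b c with
    | some x, some y, some z =>
      if (x == y && y == z) then
        some ⟨[(key a b, k), (key c d, k), (key a d, l), (key b c, l)],
          [(key a c, k + l), (key b d, k + l)], (k + l) ^ (k + l), k ^ k * l ^ l, false⟩ else none
    | _, _, _ => none
  | .lt a b c d =>
    if pos s a b && (pos s c d && mem4 a b c d s.lt) then
      some ⟨[(key a b, 1)], [(key c d, 1)], 1, 1, true⟩ else none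
  | .le a b c d =>
    if pos s a b && (pos s c d && mem4 a b c d s.le) then
      some ⟨[(key a b, 1)], [(key c d, 1)], 1, 1, false⟩ else none
  | .rt i j k a j' k' =>
    if okR s i j k a j' k' then
      some ⟨[(key a k', 1)], [(key a j', 1)], 1, 1, true⟩ else none
  | .lf i j k a i' j' =>
    if okL s i j k a i' j' then
      some ⟨[(key i' a, 1)], [(key j' a, 1)], 1, 1, true⟩ else none
  | .ce i j k a e g =>
    if pos s a g && (pos s e g && okL s i j k e a j) then
      some ⟨[(key e g, 1)], [(key a e, 1)], 10, 31, false⟩ else none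
  | .cf i j k a e g =>
    if pos s g e && (pos s g a && okR s i j k a j e) then
      some ⟨[(key g a, 1)], [(key a e, 1)], 10, 31, false⟩ else none
  | .c4 i =>
    if pos s (md (i + 1)) (md (i + 2)) && (pos s (md (i + 3)) (md (i + 4)) &&
        (pos s i (md (i + 1)) && (pos s (md (i + 4)) (md (i + 5)) && memb i s.c4))) then
      some ⟨[(key (md (i + 1)) (md (i + 2)), 1), (key (md (i + 3)) (md (i + 4)), 1)],
        [(key i (md (i + 1)), 1), (key (md (i + 4)) (md (i + 5)), 1)], 100, 101, true⟩ else none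
  | .c3 i k l n =>
    if pos s i (md (i + 3)) && (pos s (md (i + 2)) (md (i + 5)) && (pos s (md (i + 5)) i &&
        (pos s (md (i + 2)) (md (i + 3)) && memb i s.c3))) then
      some ⟨[(key i (md (i + 3)), k), (key (md (i + 2)) (md (i + 5)), l),
          (key (md (i + 5)) i, n)], [(key (md (i + 2)) (md (i + 3)), k + l + n)],
        (k + l + n) ^ (k + l + n) * 100 ^ (k + l + n),
        k ^ k * l ^ l * n ^ n * 101 ^ (k + l + n), false⟩ else none
  | .ta i k l =>
    if pos s i (md (i + 3)) && (pos s (md (i + 2)) (md (i + 5)) && (pos s i (md (i + 2)) &&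
        (pos s (md (i + 3)) (md (i + 5)) && (pos s (md (i + 2)) (md (i + 3)) && memb i s.c3)))) then
      some ⟨[(key i (md (i + 2)), k), (key (md (i + 3)) (md (i + 5)), k),
          (key (md (i + 2)) (md (i + 3)), l), (key i (md (i + 3)), l)],
        [(key (md (i + 2)) (md (i + 3)), 2 * (k + l))],
        (k + l) ^ (k + l) * 100 ^ (k + l), k ^ k * l ^ l * 101 ^ (k + l), false⟩ else none
  | .tb i k l =>
    if pos s i (md (i + 3)) && (pos s (md (i + 2)) (md (i + 5)) && (pos s i (md (i + 2)) &&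
        (pos s (md (i + 3)) (md (i + 5)) && (pos s (md (i + 2)) (md (i + 3)) && memb i s.c3)))) then
      some ⟨[(key i (md (i + 2)), k), (key (md (i + 3)) (md (i + 5)), k),
          (key (md (i + 2)) (md (i + 3)), l), (key (md (i + 2)) (md (i + 5)), l)],
        [(key (md (i + 2)) (md (i + 3)), 2 * (k + l))],
        (k + l) ^ (k + l) * 100 ^ (k + l), k ^ k * l ^ l * 101 ^ (k + l), false⟩ else none
  | .ex n => nth s.ex n

section
variable {D : ℕ → ℕ → ℝ} (hD : Cfg D) {s : St} (hs : Holds D s)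
include hD

theorem conv {a b c : ℕ} (h1 : 0 ≤ D a b) (h2 : 0 ≤ D b c) : D a c ≤ D a b + D b c := by
  obtain ⟨f, hf, -, -, e⟩ := hD.sup b
  have e1 := e a c
  rw [hD.anti b a] at e1
  have a1 := mul_le_mul_of_nonneg_left (hf a) h2
  have a2 := mul_le_mul_of_nonneg_left (hf c) h1
  linarith

theorem cen1 {i j k : ℕ} (h1 : 0 ≤ D i j) (h2 : 0 ≤ D i k) :
    D j k ≤ D i k + 31 / 10 * D i j := by
  obtain ⟨f, hf, hf2, -, e⟩ := hD.sup i
  rw [e j k]
  have a1 := mul_le_mul_of_nonneg_left (hf j) h2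
  have a2 := mul_le_mul_of_nonneg_left (hf2 k) h1
  linarith

theorem cen1' {i j k : ℕ} (h1 : 0 ≤ D j i) (h2 : 0 ≤ D k i) :
    D k j ≤ D k i + 31 / 10 * D j i := by
  obtain ⟨f, hf, hf2, -, e⟩ := hD.sup i
  have e1 := e k j
  rw [hD.anti i j, hD.anti i k] at e1
  have a1 := mul_le_mul_of_nonneg_left (hf j) h2
  have a2 := mul_le_mul_of_nonneg_left (hf2 k) h1
  linarith

theorem cen3 {i j k : ℕ} (h1 : 0 ≤ D i j) (h2 : 0 ≤ D k i) :
    D j k ≤ 31 / 10 * (D k i + D i j) := by
  obtain ⟨f, hf, hf2, -, e⟩ := hD.sup i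
  rw [e j k, hD.anti i k]
  have a1 := mul_le_mul_of_nonneg_left (hf2 j) h2
  have a2 := mul_le_mul_of_nonneg_left (hf2 k) h1
  linarith

theorem cenE {a c e g : ℕ} (h1 : 0 < D a c) (h2 : 0 < D a e) (h3 : 0 < D a g)
    (h4 : D a e ≤ D c e) : D e g ≤ 31 / 10 * D a e := by
  obtain ⟨f, hf, hf2, -, E⟩ := hD.sup a
  have e1 := E c e
  have e2 := E e g
  have hfe : f e ≤ 0 := by
    by_contra hc
    push Not at hc
    have a1 := mul_le_mul_of_nonneg_left (hf c) h2.le
    have a2 := mul_pos h1 hc
    linarith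
  have a3 := mul_nonneg h3.le (neg_nonneg.2 hfe)
  have a4 := mul_le_mul_of_nonneg_left (hf2 g) h2.le
  linarith

theorem cenF {a c e g : ℕ} (h1 : 0 < D c e) (h2 : 0 < D a e) (h3 : 0 < D g e)
    (h4 : D a e ≤ D a c) : D g a ≤ 31 / 10 * D a e := by
  obtain ⟨f, hf, hf2, -, E⟩ := hD.sup e
  have e1 := E a c
  have e2 := E g a
  rw [hD.anti e c, hD.anti e a] at e1
  rw [hD.anti e a, hD.anti e g] at e2
  have hfe : f a ≤ 0 := by
    by_contra hc
    push Not at hc
    have a1 := mul_le_mul_of_nonneg_left (hf c) h2.le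
    have a2 := mul_pos h1 hc
    linarith
  have a3 := mul_nonneg h3.le (neg_nonneg.2 hfe)
  have a4 := mul_le_mul_of_nonneg_left (hf2 g) h2.le
  linarith

include hs

theorem okR_spec {i j k a j' k' : ℕ} (h : okR s i j k a j' k' = true) :
    D a k' < D a j' := by
  have P : ∀ {i j : ℕ}, pos s i j = true → 0 < D i j := fun {i j} h => hs.sg i j h
  simp only [okR, Bool.and_eq_true, Bool.or_eq_true] at h
  obtain ⟨h1, h2, h3, h4, h5, h6, h7, h8, h9, h10, h11, h12, h13⟩ := h
  have hlab : D i k < D i j := hs.lt _ (mem4_mem h4)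
  have pij := P h1
  have pjk := P h2
  have paj := P h6
  have pak := P h7
  have pjk' := P h9
  have pak' := P h10
  have pj'k' := P h12
  have paj' := P h13
  have s1 : D a k < D a j := by
    rcases h5 with h5 | h5
    · rw [Nat.eq_of_beq_eq_true h5]; exact hlab
    have pai := P h5
    have e1 := hD.plu a i j k
    by_contra hc
    push Not at hc
    have g1 : D i j * (D a k - D a j) = D a j * (D i k - D i j) - D a i * D j k := by
      linear_combination (1 : ℝ) * e1
    have g2 : 0 ≤ D i j * (D a k - D a j) := mul_nonneg pij.le (by linarith)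
    have g3 : D a j * (D i k - D i j) < 0 := mul_neg_of_pos_of_neg paj (by linarith)
    have g4 := mul_pos pai pjk
    linarith
  have s2 : D a k' < D a j := by
    rcases h8 with h8 | h8
    · rw [Nat.eq_of_beq_eq_true h8]; exact s1
    have pkk := P h8
    by_contra hc
    push Not at hc
    have t := conv hD pjk.le pkk.le
    have e1 := hD.plu a j k k'
    have g1 := mul_le_mul_of_nonneg_left t paj.le
    have g2 := mul_le_mul_of_nonneg_right hc pjk.le
    have g3 : D a j * D j k' ≤ D a k * D j k' := by nlinarith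
    have g4 := le_of_mul_le_mul_right g3 pjk'
    linarith
  rcases h11 with h11 | h11
  · rw [Nat.eq_of_beq_eq_true h11]; exact s2
  have pjj := P h11
  have t := conv hD pjj.le pj'k'.le
  have e1 := hD.plu a j j' k'
  by_contra hc
  push Not at hc
  have g1 := mul_le_mul_of_nonneg_left t pak'.le
  have g2 := mul_lt_mul_of_pos_right s2 pj'k'
  have g3 := mul_le_mul_of_nonneg_right hc pjk'.le
  nlinarith

theorem okL_spec {i j k a i' j' : ℕ} (h : okL s i j k a i' j' = true) :
    D i' a < D j' a := by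
  have P : ∀ {i j : ℕ}, pos s i j = true → 0 < D i j := fun {i j} h => hs.sg i j h
  simp only [okL, Bool.and_eq_true, Bool.or_eq_true] at h
  obtain ⟨h1, h2, h3, h4, h5, h6, h7, h8, h9, h10, h11, h12, h13⟩ := h
  have hlab : D i k < D j k := hs.lt _ (mem4_mem h4)
  have pij := P h1
  have pjk := P h2
  have pja := P h6
  have pia := P h7
  have pi'j := P h9
  have pi'a := P h10
  have pi'j' := P h12
  have pj'a := P h13
  have s1 : D i a < D j a := by
    rcases h5 with h5 | h5
    · rw [Nat.eq_of_beq_eq_true h5]; exact hlab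
    have pka := P h5
    have e1 := hD.plu i j k a
    by_contra hc
    push Not at hc
    have g1 : D j k * (D i a - D j a) = D j a * (D i k - D j k) - D k a * D i j := by
      linear_combination (1 : ℝ) * e1
    have g2 : 0 ≤ D j k * (D i a - D j a) := mul_nonneg pjk.le (by linarith)
    have g3 : D j a * (D i k - D j k) < 0 := mul_neg_of_pos_of_neg pja (by linarith)
    have g4 := mul_pos pka pij
    linarith
  have s2 : D i' a < D j a := by
    rcases h8 with h8 | h8
    · rw [Nat.eq_of_beq_eq_true h8]; exact s1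
    have pii := P h8
    by_contra hc
    push Not at hc
    have t := conv hD pii.le pij.le
    have e1 := hD.plu i' i j a
    have g1 := mul_le_mul_of_nonneg_left t pja.le
    have g2 := mul_le_mul_of_nonneg_right hc pij.le
    have g3 : D j a * D i' j ≤ D i a * D i' j := by nlinarith
    have g4 := le_of_mul_le_mul_right g3 pi'j
    linarith
  rcases h11 with h11 | h11
  · rw [Nat.eq_of_beq_eq_true h11]; exact s2
  have pjj := P h11
  have t := conv hD pi'j'.le pjj.le
  have e1 := hD.plu i' j' j a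
  by_contra hc
  push Not at hc
  have g1 := mul_le_mul_of_nonneg_left t pi'a.le
  have g2 := mul_lt_mul_of_pos_right s2 pi'j'
  have g3 := mul_le_mul_of_nonneg_right hc pi'j.le
  nlinarith

theorem ev_sound {F : Fact} {I : Ineq} (h : ev s F = some I) : I.holds (yv D) := by
  have Y : ∀ {i j : ℕ}, pos s i j = true → yv D (key i j) = D i j := fun h => yv_pos_key hD hs h
  have P : ∀ {i j : ℕ}, pos s i j = true → 0 < D i j := fun {i j} h => hs.sg i j h
  rcases F with ⟨a, b, c, d⟩ | ⟨a, b, c, d, k, l⟩ | ⟨a, b, c, d⟩ | ⟨a, b, c, d⟩ |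
    ⟨i, j, k, a, j', k'⟩ | ⟨i, j, k, a, i', j'⟩ | ⟨i, j, k, a, e, g⟩ | ⟨i, j, k, a, e, g⟩ |
    ⟨i⟩ | ⟨i, k, l, n⟩ | ⟨i, k, l⟩ | ⟨i, k, l⟩ | ⟨n⟩
  · -- pl
    simp only [ev] at h
    split at h
    · rename_i x y z h1 h2 h3
      split_ifs at h with h4
      injection h with h
      subst h
      simp only [Bool.and_eq_true, beq_iff_eq] at h4
      obtain ⟨rfl, rfl⟩ := h4
      have e := plu_abs hD hs h1 h2 h3
      have p1 := yv_pos D (key a d)
      have p2 := yv_pos D (key b c)
      have p3 := mul_pos p1 p2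
      refine ⟨?_, fun _ => ?_⟩ <;> simp only [mon, pow_one, mul_one, Nat.cast_one, one_mul] <;>
        linarith
    · simp at h
  · -- am
    simp only [ev] at h
    split at h
    · rename_i x y z h1 h2 h3
      split_ifs at h with h4
      injection h with h
      subst h
      simp only [Bool.and_eq_true, beq_iff_eq] at h4
      obtain ⟨rfl, rfl⟩ := h4
      have e := plu_abs hD hs h1 h2 h3
      have p1 := yv_pos D (key a d)
      have p2 := yv_pos D (key b c)
      have p3 := yv_pos D (key a b)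
      have p4 := yv_pos D (key c d)
      have hA := amgm2 (mul_pos p3 p4).le (mul_pos p1 p2).le k l
      rw [← e] at hA
      refine ⟨?_, fun h => by simp at h⟩
      simp only [mon, mul_one]
      push_cast at hA ⊢
      calc _ = ((k : ℝ) + l) ^ (k + l) * ((yv D (key a b) * yv D (key c d)) ^ k *
            (yv D (key a d) * yv D (key b c)) ^ l) := by rw [mul_pow, mul_pow]; ring
        _ ≤ _ := hA
        _ = _ := by rw [mul_pow]
    · simp at h
  · -- lt
    simp only [ev] at h
    split_ifs at h with h4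
    injection h with h
    subst h
    simp only [Bool.and_eq_true] at h4
    obtain ⟨h1, h2, h3⟩ := h4
    have h5 := hs.lt _ (mem4_mem h3)
    simp only at h5
    refine ⟨?_, fun _ => ?_⟩ <;>
      simp only [mon, pow_one, mul_one, Nat.cast_one, one_mul, Y h1, Y h2]
    · exact h5.le
    · exact h5
  · -- le
    simp only [ev] at h
    split_ifs at h with h4
    injection h with h
    subst h
    simp only [Bool.and_eq_true] at h4
    obtain ⟨h1, h2, h3⟩ := h4
    have h5 := hs.le _ (mem4_mem h3)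
    refine ⟨?_, fun h => by simp at h⟩
    simp only [mon, pow_one, mul_one, Nat.cast_one, one_mul, Y h1, Y h2]
    exact h5
  · -- rt
    simp only [ev] at h
    split_ifs at h with h4
    injection h with h
    subst h
    have h5 := okR_spec hD hs h4
    simp only [okR, Bool.and_eq_true] at h4
    obtain ⟨-, -, -, -, -, -, -, -, -, h10, -, -, h13⟩ := h4
    refine ⟨?_, fun _ => ?_⟩ <;>
      simp only [mon, pow_one, mul_one, Nat.cast_one, one_mul, Y h10, Y h13]
    · exact h5.le
    · exact h5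
  · -- lf
    simp only [ev] at h
    split_ifs at h with h4
    injection h with h
    subst h
    have h5 := okL_spec hD hs h4
    simp only [okL, Bool.and_eq_true] at h4
    obtain ⟨-, -, -, -, -, -, -, -, -, h10, -, -, h13⟩ := h4
    refine ⟨?_, fun _ => ?_⟩ <;>
      simp only [mon, pow_one, mul_one, Nat.cast_one, one_mul, Y h10, Y h13]
    · exact h5.le
    · exact h5
  · -- ce
    simp only [ev] at h
    split_ifs at h with h4
    injection h with h
    subst h
    simp only [Bool.and_eq_true] at h4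
    obtain ⟨g1, g2, h4⟩ := h4
    have h5 := okL_spec hD hs h4
    simp only [okL, Bool.and_eq_true] at h4
    obtain ⟨-, -, -, -, -, -, -, -, h9, h10, -, -, h13⟩ := h4
    have h8 := cenE hD (P h9) (P h10) (P g1) h5.le
    refine ⟨?_, fun h => by simp at h⟩
    simp only [mon, pow_one, mul_one, Y g2, Y h10]
    push_cast
    linarith
  · -- cf
    simp only [ev] at h
    split_ifs at h with h4
    injection h with h
    subst h
    simp only [Bool.and_eq_true] at h4
    obtain ⟨g1, g2, h4⟩ := h4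
    have h5 := okR_spec hD hs h4
    simp only [okR, Bool.and_eq_true] at h4
    obtain ⟨-, -, -, -, -, -, -, -, -, h10, -, h12, h13⟩ := h4
    have h8 := cenF hD (P h12) (P h10) (P g1) h5.le
    refine ⟨?_, fun h => by simp at h⟩
    simp only [mon, pow_one, mul_one, Y g2, Y h10]
    push_cast
    linarith
  · -- c4
    simp only [ev] at h
    split_ifs at h with h4
    injection h with h
    subst h
    simp only [Bool.and_eq_true] at h4
    obtain ⟨h1, h2, h3, h4, h5⟩ := h4
    have h6 := hs.c4 _ (memb_mem h5)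
    have q1 : D (md (i + 1)) (md (i + 2)) = D (i + 1) (i + 2) := permd hD _ _
    have q2 : D (md (i + 3)) (md (i + 4)) = D (i + 3) (i + 4) := permd hD _ _
    have q3 : D i (md (i + 1)) = D i (i + 1) := by
      rw [hD.anti, perl hD, ← hD.anti]
    have q4 : D (md (i + 4)) (md (i + 5)) = D (i + 4) (i + 5) := permd hD _ _
    refine ⟨?_, fun _ => ?_⟩ <;>
      simp only [mon, pow_one, mul_one, Y h1, Y h2, Y h3, Y h4, q1, q2, q3, q4] <;>
      push_cast <;> linarith
  · -- c3
    simp only [ev] at h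
    split_ifs at h with h4
    injection h with h
    subst h
    simp only [Bool.and_eq_true] at h4
    obtain ⟨h1, h2, h3, h4, h5⟩ := h4
    obtain ⟨h6, -, -⟩ := hs.c3 _ (memb_mem h5)
    have q1 : D i (md (i + 3)) = D i (i + 3) := by rw [hD.anti, perl hD, ← hD.anti]
    have q2 : D (md (i + 2)) (md (i + 5)) = D (i + 2) (i + 5) := permd hD _ _
    have q3 : D (md (i + 5)) i = D (i + 5) i := perl hD _ _
    have q4 : D (md (i + 2)) (md (i + 3)) = D (i + 2) (i + 3) := permd hD _ _
    have p1 := P h1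
    have p2 := P h2
    have p3 := P h3
    have p4 := P h4
    rw [q1] at p1
    rw [q2] at p2
    rw [q3] at p3
    rw [q4] at p4
    have hsum : D i (i + 3) + D (i + 2) (i + 5) + D (i + 5) i ≤ 101 / 100 * D (i + 2) (i + 3) := by
      have := hD.anti i (i + 5)
      linarith
    have hA := amgm3 p1.le p2.le p3.le k l n
    have hB := pow_le_pow_left₀ (by positivity) hsum (k + l + n)
    refine ⟨?_, fun h => by simp at h⟩
    simp only [mon, mul_one, Y h1, Y h2, Y h3, Y h4, q1, q2, q3, q4]
    push_cast at hA ⊢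
    have pk : (0 : ℝ) ≤ (k : ℝ) ^ k * (l : ℝ) ^ l * (n : ℝ) ^ n := by positivity
    have hC := mul_le_mul_of_nonneg_left hB pk
    have hE : ((101 : ℝ) / 100 * D (i + 2) (i + 3)) ^ (k + l + n) * 100 ^ (k + l + n) =
        101 ^ (k + l + n) * D (i + 2) (i + 3) ^ (k + l + n) := by
      rw [← mul_pow, ← mul_pow]; congr 1; ring
    calc _ = (((k : ℝ) + l + n) ^ (k + l + n) * (D i (i + 3) ^ k * D (i + 2) (i + 5) ^ l *
          D (i + 5) i ^ n)) * 100 ^ (k + l + n) := by ring
      _ ≤ ((k : ℝ) ^ k * (l : ℝ) ^ l * (n : ℝ) ^ n *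
          ((101 : ℝ) / 100 * D (i + 2) (i + 3)) ^ (k + l + n)) * 100 ^ (k + l + n) :=
          mul_le_mul_of_nonneg_right (hA.trans hC) (by positivity)
      _ = (k : ℝ) ^ k * (l : ℝ) ^ l * (n : ℝ) ^ n *
          (((101 : ℝ) / 100 * D (i + 2) (i + 3)) ^ (k + l + n) * 100 ^ (k + l + n)) := by ring
      _ = _ := by rw [hE]; ring
  · -- ta
    simp only [ev] at h
    split_ifs at h with h4
    injection h with h
    subst h
    simp only [Bool.and_eq_true] at h4
    obtain ⟨h1, h2, h3, h4, h5, h7⟩ := h4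
    obtain ⟨h6, hAU, hBU⟩ := hs.c3 _ (memb_mem h7)
    have q1 : D i (md (i + 3)) = D i (i + 3) := by rw [hD.anti, perl hD, ← hD.anti]
    have q2 : D (md (i + 2)) (md (i + 5)) = D (i + 2) (i + 5) := permd hD _ _
    have q3 : D i (md (i + 2)) = D i (i + 2) := by rw [hD.anti, perl hD, ← hD.anti]
    have q4 : D (md (i + 3)) (md (i + 5)) = D (i + 3) (i + 5) := permd hD _ _
    have q5 : D (md (i + 2)) (md (i + 3)) = D (i + 2) (i + 3) := permd hD _ _
    have p1 := P h1
    have p2 := P h2
    have p3 := P h3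
    have p4 := P h4
    have p5 := P h5
    rw [q1] at p1
    rw [q2] at p2
    rw [q3] at p3
    rw [q4] at p4
    rw [q5] at p5
    have hpl := hD.plu i (i + 2) (i + 3) (i + 5)
    have hsum : D i (i + 2) * D (i + 3) (i + 5) + D (i + 2) (i + 3) * D i (i + 3) ≤
        101 / 100 * D (i + 2) (i + 3) ^ 2 := by
      have r1 := mul_le_mul_of_nonneg_left h6.le p5.le
      have r2 := mul_nonneg p2.le (sub_nonneg.2 hAU.le)
      nlinarith
    have hA := amgm2 (mul_pos p3 p4).le (mul_pos p5 p1).le k l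
    have hB := pow_le_pow_left₀ (by positivity) hsum (k + l)
    refine ⟨?_, fun h => by simp at h⟩
    simp only [mon, mul_one, Y h1, Y h2, Y h3, Y h4, Y h5, q1, q2, q3, q4, q5]
    push_cast at hA ⊢
    have pk : (0 : ℝ) ≤ (k : ℝ) ^ k * (l : ℝ) ^ l := by positivity
    have hC := mul_le_mul_of_nonneg_left hB pk
    have hE : ((101 : ℝ) / 100 * D (i + 2) (i + 3) ^ 2) ^ (k + l) * 100 ^ (k + l) =
        101 ^ (k + l) * D (i + 2) (i + 3) ^ (2 * (k + l)) := by
      rw [pow_mul, ← mul_pow, ← mul_pow]; congr 1; ring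
    calc _ = (((k : ℝ) + l) ^ (k + l) * ((D i (i + 2) * D (i + 3) (i + 5)) ^ k *
          (D (i + 2) (i + 3) * D i (i + 3)) ^ l)) * 100 ^ (k + l) := by
          rw [mul_pow (D i (i + 2)), mul_pow (D (i + 2) (i + 3))]; ring
      _ ≤ ((k : ℝ) ^ k * (l : ℝ) ^ l *
          ((101 : ℝ) / 100 * D (i + 2) (i + 3) ^ 2) ^ (k + l)) * 100 ^ (k + l) :=
          mul_le_mul_of_nonneg_right (hA.trans hC) (by positivity)
      _ = (k : ℝ) ^ k * (l : ℝ) ^ l *
          (((101 : ℝ) / 100 * D (i + 2) (i + 3) ^ 2) ^ (k + l) * 100 ^ (k + l)) := by ring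
      _ = _ := by rw [hE]; ring
  · -- tb
    simp only [ev] at h
    split_ifs at h with h4
    injection h with h
    subst h
    simp only [Bool.and_eq_true] at h4
    obtain ⟨h1, h2, h3, h4, h5, h7⟩ := h4
    obtain ⟨h6, hAU, hBU⟩ := hs.c3 _ (memb_mem h7)
    have q1 : D i (md (i + 3)) = D i (i + 3) := by rw [hD.anti, perl hD, ← hD.anti]
    have q2 : D (md (i + 2)) (md (i + 5)) = D (i + 2) (i + 5) := permd hD _ _
    have q3 : D i (md (i + 2)) = D i (i + 2) := by rw [hD.anti, perl hD, ← hD.anti]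
    have q4 : D (md (i + 3)) (md (i + 5)) = D (i + 3) (i + 5) := permd hD _ _
    have q5 : D (md (i + 2)) (md (i + 3)) = D (i + 2) (i + 3) := permd hD _ _
    have p1 := P h1
    have p2 := P h2
    have p3 := P h3
    have p4 := P h4
    have p5 := P h5
    rw [q1] at p1
    rw [q2] at p2
    rw [q3] at p3
    rw [q4] at p4
    rw [q5] at p5
    have hpl := hD.plu i (i + 2) (i + 3) (i + 5)
    have hsum : D i (i + 2) * D (i + 3) (i + 5) + D (i + 2) (i + 3) * D (i + 2) (i + 5) ≤
        101 / 100 * D (i + 2) (i + 3) ^ 2 := by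
      have r1 := mul_le_mul_of_nonneg_left h6.le p5.le
      have r2 := mul_nonneg p1.le (sub_nonneg.2 hBU.le)
      nlinarith
    have hA := amgm2 (mul_pos p3 p4).le (mul_pos p5 p2).le k l
    have hB := pow_le_pow_left₀ (by positivity) hsum (k + l)
    refine ⟨?_, fun h => by simp at h⟩
    simp only [mon, mul_one, Y h1, Y h2, Y h3, Y h4, Y h5, q1, q2, q3, q4, q5]
    push_cast at hA ⊢
    have pk : (0 : ℝ) ≤ (k : ℝ) ^ k * (l : ℝ) ^ l := by positivity
    have hC := mul_le_mul_of_nonneg_left hB pk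
    have hE : ((101 : ℝ) / 100 * D (i + 2) (i + 3) ^ 2) ^ (k + l) * 100 ^ (k + l) =
        101 ^ (k + l) * D (i + 2) (i + 3) ^ (2 * (k + l)) := by
      rw [pow_mul, ← mul_pow, ← mul_pow]; congr 1; ring
    calc _ = (((k : ℝ) + l) ^ (k + l) * ((D i (i + 2) * D (i + 3) (i + 5)) ^ k *
          (D (i + 2) (i + 3) * D (i + 2) (i + 5)) ^ l)) * 100 ^ (k + l) := by
          rw [mul_pow (D i (i + 2)), mul_pow (D (i + 2) (i + 3))]; ring
      _ ≤ ((k : ℝ) ^ k * (l : ℝ) ^ l *
          ((101 : ℝ) / 100 * D (i + 2) (i + 3) ^ 2) ^ (k + l)) * 100 ^ (k + l) :=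
          mul_le_mul_of_nonneg_right (hA.trans hC) (by positivity)
      _ = (k : ℝ) ^ k * (l : ℝ) ^ l *
          (((101 : ℝ) / 100 * D (i + 2) (i + 3) ^ 2) ^ (k + l) * 100 ^ (k + l)) := by ring
      _ = _ := by rw [hE]; ring
  · -- ex
    simp only [ev] at h
    exact hs.ex _ (nth_mem h)

end

end Pool.Agent.H292.TW.Chk
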