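import Pool.Agent.H292.TW.Chk3
import Pool.Agent.H221.TW.Disp

/-!
Project TW (helper221), S_planar: from a chain in generic position to the abstract configuration
of the checker.
-/

set_option autoImplicit false

namespace Pool.Agent.H292.TW.Chk

open Pool.Agent.H332.HT (V2 det)
open Pool.Agent.H221.TW

theorem cfg_of {Q : Set V2} {th : ℕ → ℝ} {p : ℕ → V2} (h : Pool.Agent.H490.TW.PB.Hyp Q th p) :
    Cfg (fun i j => det (p i) (p j)) where
  anti i j := Pool.Agent.H490.TW.PB.det_swap _ _
  plu a b c d := Pool.Agent.H490.TW.PB.pluecker _ _ _ _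
  per i j := by simp only [h.ch.pper]
  gen i j hi hj hij := by
    rcases lt_or_gt_of_ne hij with h1 | h1
    · rcases Pool.Agent.H490.TW.PB.sgn h h1 (by omega : j < i + 10) with h2 | h2
      · right
        rw [Pool.Agent.H490.TW.PB.det_swap]; linarith
      · exact Or.inl h2
    · rcases Pool.Agent.H490.TW.PB.sgn h h1 (by omega : i < j + 10) with h2 | h2
      · left
        rw [Pool.Agent.H490.TW.PB.det_swap]; linarith
      · exact Or.inr h2
  ord i m m' n h1 h2 h3 h4 :=
    Pool.Agent.H490.TW.PB.pos_mono h (by omega : i ≤ i + m) (by omega : i + m < i + m')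
      (by omega : i + m' ≤ i + n) (by omega : i + n < i + 10) h4
  sup a := Pool.Agent.H490.TW.PB.cent h a
  pair i k h1 h2 h3 := by
    have h4 := (Pool.Agent.H490.TW.PB.pos_iff h (by omega : i < i + k + 1)
      (by omega : i + k + 1 < i + 10)).1 h3
    have h5 := h.ch.pair i (i + k) (by omega) (by omega) h4
    exact lt_max_iff.1 h5
  ch3 i h1 h2 := by
    have h3 := (Pool.Agent.H490.TW.PB.pos_iff h (by omega : i < i + 3)
      (by omega : i + 3 < i + 10)).1 h1
    have h4 := (Pool.Agent.H490.TW.PB.pos_iff h (by omega : i + 2 < i + 5)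
      (by omega : i + 5 < i + 2 + 10)).1 h2
    exact h.ch.ch3 i h3 h4

/-- the mask `m` contains only pairs which are positive for the class `v` -/
def mok (v : List ℕ) (m : ℕ) : Bool :=
  (List.range 10).all fun i => (List.range 10).all fun j =>
    !(Nat.testBit m (10 * i + j)) ||
      (Nat.ble 1 (md (j + 10 - i)) && Nat.ble (md (j + 10 - i)) (v.getD i 0))

theorem class_false {v : List ℕ} {m : ℕ} {T : Tr} (hT : chk T ⟨m, [], [], [], [], []⟩ = true)
    (hm : mok v m = true) : ∀ (Q : Set V2) (th : ℕ → ℝ) (p : ℕ → V2),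
    Pool.Agent.H490.TW.PB.Hyp Q th p → HV th v → False := by
  intro Q th p h hv
  have hD := cfg_of h
  refine chk_sound hD T _ hT ⟨?_, by simp, by simp, by simp, by simp, by simp⟩
  intro i j hij
  simp only [pos, Bool.and_eq_true, Nat.blt_eq] at hij
  obtain ⟨hi, hj, hb⟩ := hij
  simp only [mok, List.all_eq_true, List.mem_range, Bool.or_eq_true, Bool.not_eq_true',
    Bool.and_eq_true] at hm
  have h1 := hm i hi j hj
  rw [hb] at h1
  rcases h1 with h1 | ⟨h1, h2⟩
  · simp at h1
  have h1' := Nat.le_of_ble_eq_true h1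
  have h2' := Nat.le_of_ble_eq_true h2
  set k := md (j + 10 - i) with hk
  have hk10 : k < 10 := md_lt _
  have h3 : th (i + k) < th i + Real.pi :=
    lt_of_le_of_lt (h.ch.mono.monotone (by omega : i + k ≤ i + v.getD i 0)) (hv i hi).1
  have h4 : 0 < det (p i) (p (i + k)) :=
    (Pool.Agent.H490.TW.PB.pos_iff h (by omega : i < i + k) (by omega : i + k < i + 10)).2 h3
  have h5 : md (i + k) = j := by rw [hk]; unfold md; omega
  have h6 := perr hD i (i + k)
  rw [h5] at h6
  show 0 < det (p i) (p j)
  have h7 : det (p i) (p j) = det (p i) (p (i + k)) := h6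
  rw [h7]; exact h4

end Pool.Agent.H292.TW.Chk
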